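import Pool.Agent.C1s.Defs

set_option autoImplicit false

namespace Pool.Agent.C1s

open Finset Pool.Agent.TC
open Pool.Agent.SRC (ind ind_true ind_false ind_nonneg ind_le_one ind_not ind_congr)

variable {V E : Type*} [Fintype V] [DecidableEq V] [Fintype E] [DecidableEq E] (a b : E → V)

section Cone_basic

omit [Fintype V]

private theorem Cone_congr {f g : Finset V → ℝ} (hf : Pos f) (h : ∀ T, f T = g T) : Pos g := by
  have e : f = g := funext h
  rw [← e]
  exact hf

private theorem Cone_congr2 {f g : Finset V → Finset V → ℝ} (hf : Pos2 f)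
    (h : ∀ T U, f T U = g T U) : Pos2 g := by
  have e : f = g := funext fun T => funext fun U => h T U
  rw [← e]
  exact hf

private theorem Cone_char_one : IsChar (fun _ : Finset V => (1 : ℝ)) :=
  ⟨fun _ => Or.inl rfl, fun _ _ => (one_mul 1).symm⟩

private theorem Cone_char_mul {χ ψ : Finset V → ℝ} (hχ : IsChar χ) (hψ : IsChar ψ) :
    IsChar (fun T => χ T * ψ T) := by
  refine ⟨fun T => ?_, fun T U => ?_⟩
  · rcases hχ.1 T with h | h <;> rcases hψ.1 T with h' | h' <;> simp [h, h']
  · show χ (symmDiff T U) * ψ (symmDiff T U) = χ T * ψ T * (χ U * ψ U)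
    rw [hχ.2, hψ.2]
    ring

private theorem Cone_char_spin (v : V) : IsChar (fun T : Finset V => spin T v) := by
  refine ⟨fun T => ?_, fun T U => ?_⟩
  · show spin T v = 1 ∨ spin T v = -1
    unfold spin
    by_cases h : v ∈ T
    · exact Or.inr (if_pos h)
    · exact Or.inl (if_neg h)
  · show spin (symmDiff T U) v = spin T v * spin U v
    unfold spin
    by_cases h : v ∈ T <;> by_cases h' : v ∈ U <;> simp [Finset.mem_symmDiff, h, h']

end Cone_basic

theorem Pos.zero : Pos (fun _ : Finset V => (0 : ℝ)) :=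
  Cone_congr (Pos.base 0 le_rfl _ Cone_char_one) fun _ => zero_mul _

theorem Pos.const (c : ℝ) (hc : 0 ≤ c) : Pos (fun _ : Finset V => c) :=
  Cone_congr (Pos.base c hc _ Cone_char_one) fun _ => mul_one _

theorem Pos.mul {f g : Finset V → ℝ} (hf : Pos f) (hg : Pos g) : Pos (fun T => f T * g T) := by
  induction hf with
  | base c hc χ hχ =>
    induction hg with
    | base c' hc' χ' hχ' =>
      refine Cone_congr (Pos.base (c * c') (mul_nonneg hc hc') _ (Cone_char_mul hχ hχ'))
        fun T => ?_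
      show c * c' * (χ T * χ' T) = c * χ T * (c' * χ' T)
      ring
    | add f g _ _ ihf ihg =>
      refine Cone_congr (Pos.add _ _ ihf ihg) fun T => ?_
      show c * χ T * f T + c * χ T * g T = c * χ T * (f T + g T)
      ring
  | add f g' _ _ ihf ihg =>
    refine Cone_congr (Pos.add _ _ ihf ihg) fun T => ?_
    show f T * g T + g' T * g T = (f T + g' T) * g T
    ring

theorem Pos.sum {ι : Type*} (s : Finset ι) (f : ι → Finset V → ℝ) (hf : ∀ i ∈ s, Pos (f i)) :
    Pos (fun T => ∑ i ∈ s, f i T) := by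
  classical
  induction s using Finset.induction_on with
  | empty => exact Cone_congr Pos.zero fun T => (Finset.sum_empty).symm
  | insert i s hi ih =>
    refine Cone_congr (Pos.add _ _ (hf i (Finset.mem_insert_self i s))
      (ih fun j hj => hf j (Finset.mem_insert_of_mem hj))) fun T => ?_
    rw [Finset.sum_insert hi]

theorem Pos.prod {ι : Type*} (s : Finset ι) (f : ι → Finset V → ℝ) (hf : ∀ i ∈ s, Pos (f i)) :
    Pos (fun T => ∏ i ∈ s, f i T) := by
  classical
  induction s using Finset.induction_on with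
  | empty => exact Cone_congr (Pos.const 1 zero_le_one) fun T => (Finset.prod_empty).symm
  | insert i s hi ih =>
    refine Cone_congr (Pos.mul (hf i (Finset.mem_insert_self i s))
      (ih fun j hj => hf j (Finset.mem_insert_of_mem hj))) fun T => ?_
    rw [Finset.prod_insert hi]

private theorem Cone_char_sum {χ : Finset V → ℝ} (hχ : IsChar χ) :
    0 ≤ ∑ T : Finset V, χ T := by
  by_cases h : ∃ T₀, χ T₀ = -1
  · obtain ⟨T₀, h0⟩ := h
    have hi : Function.Involutive (fun T : Finset V => symmDiff T T₀) := fun T =>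
      symmDiff_symmDiff_cancel_right T₀ T
    have h1 : ∑ T : Finset V, χ (symmDiff T T₀) = ∑ T : Finset V, χ T :=
      Fintype.sum_equiv hi.toPerm _ _ fun T => rfl
    have h2 : ∑ T : Finset V, χ (symmDiff T T₀) = - ∑ T : Finset V, χ T := by
      rw [← Finset.sum_neg_distrib]
      refine Finset.sum_congr rfl fun T _ => ?_
      rw [hχ.2, h0, mul_neg_one]
    have h3 : ∑ T : Finset V, χ T = 0 := by linarith
    rw [h3]
  · refine Finset.sum_nonneg fun T _ => ?_
    rcases hχ.1 T with h1 | h1
    · rw [h1]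
      exact zero_le_one
    · exact absurd ⟨T, h1⟩ h

theorem Pos.sum_nonneg {f : Finset V → ℝ} (hf : Pos f) : 0 ≤ ∑ T : Finset V, f T := by
  induction hf with
  | base c hc χ hχ =>
    rw [← Finset.mul_sum]
    exact mul_nonneg hc (Cone_char_sum hχ)
  | add f g _ _ ihf ihg =>
    rw [Finset.sum_add_distrib]
    exact add_nonneg ihf ihg

theorem Pos2.zero : Pos2 (fun _ _ : Finset V => (0 : ℝ)) :=
  Cone_congr2 (Pos2.base 0 le_rfl _ _ Cone_char_one Cone_char_one) fun _ _ => zero_mul _

private theorem Cone_const2 (c : ℝ) (hc : 0 ≤ c) : Pos2 (fun _ _ : Finset V => c) :=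
  Cone_congr2 (Pos2.base c hc _ _ Cone_char_one Cone_char_one) fun _ _ => by
    show c * (1 * 1) = c
    ring

theorem Pos2.mul {f g : Finset V → Finset V → ℝ} (hf : Pos2 f) (hg : Pos2 g) :
    Pos2 (fun T U => f T U * g T U) := by
  induction hf with
  | base c hc χ ψ hχ hψ =>
    induction hg with
    | base c' hc' χ' ψ' hχ' hψ' =>
      refine Cone_congr2 (Pos2.base (c * c') (mul_nonneg hc hc') _ _ (Cone_char_mul hχ hχ')
        (Cone_char_mul hψ hψ')) fun T U => ?_
      show c * c' * (χ T * χ' T * (ψ U * ψ' U)) = c * (χ T * ψ U) * (c' * (χ' T * ψ' U))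
      ring
    | add f g _ _ ihf ihg =>
      refine Cone_congr2 (Pos2.add _ _ ihf ihg) fun T U => ?_
      show c * (χ T * ψ U) * f T U + c * (χ T * ψ U) * g T U =
        c * (χ T * ψ U) * (f T U + g T U)
      ring
  | add f g' _ _ ihf ihg =>
    refine Cone_congr2 (Pos2.add _ _ ihf ihg) fun T U => ?_
    show f T U * g T U + g' T U * g T U = (f T U + g' T U) * g T U
    ring

theorem Pos2.sum {ι : Type*} (s : Finset ι) (f : ι → Finset V → Finset V → ℝ)
    (hf : ∀ i ∈ s, Pos2 (f i)) : Pos2 (fun T U => ∑ i ∈ s, f i T U) := by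
  classical
  induction s using Finset.induction_on with
  | empty => exact Cone_congr2 Pos2.zero fun T U => (Finset.sum_empty).symm
  | insert i s hi ih =>
    refine Cone_congr2 (Pos2.add _ _ (hf i (Finset.mem_insert_self i s))
      (ih fun j hj => hf j (Finset.mem_insert_of_mem hj))) fun T U => ?_
    rw [Finset.sum_insert hi]

theorem Pos2.prod {ι : Type*} (s : Finset ι) (f : ι → Finset V → Finset V → ℝ)
    (hf : ∀ i ∈ s, Pos2 (f i)) : Pos2 (fun T U => ∏ i ∈ s, f i T U) := by
  classical
  induction s using Finset.induction_on with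
  | empty => exact Cone_congr2 (Cone_const2 1 zero_le_one) fun T U => (Finset.prod_empty).symm
  | insert i s hi ih =>
    refine Cone_congr2 (Pos2.mul (hf i (Finset.mem_insert_self i s))
      (ih fun j hj => hf j (Finset.mem_insert_of_mem hj))) fun T U => ?_
    rw [Finset.prod_insert hi]

theorem Pos.left {f : Finset V → ℝ} (hf : Pos f) : Pos2 (fun T _ => f T) := by
  induction hf with
  | base c hc χ hχ =>
    refine Cone_congr2 (Pos2.base c hc χ _ hχ Cone_char_one) fun T U => ?_
    show c * (χ T * 1) = c * χ T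
    rw [mul_one]
  | add f g _ _ ihf ihg => exact Pos2.add _ _ ihf ihg

theorem Pos.right {f : Finset V → ℝ} (hf : Pos f) : Pos2 (fun _ U => f U) := by
  induction hf with
  | base c hc χ hχ =>
    refine Cone_congr2 (Pos2.base c hc _ χ Cone_char_one hχ) fun T U => ?_
    show c * (1 * χ U) = c * χ U
    rw [one_mul]
  | add f g _ _ ihf ihg => exact Pos2.add _ _ ihf ihg

/-- Summation over the second configuration. -/
theorem Pos2.sum_right {h : Finset V → Finset V → ℝ} (hh : Pos2 h) :
    Pos (fun T => ∑ U : Finset V, h T U) := by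
  induction hh with
  | base c hc χ ψ hχ hψ =>
    refine Cone_congr (Pos.base (c * ∑ U : Finset V, ψ U)
      (mul_nonneg hc (Cone_char_sum hψ)) χ hχ) fun T => ?_
    rw [← Finset.mul_sum, ← Finset.mul_sum]
    ring
  | add f g _ _ ihf ihg =>
    refine Cone_congr (Pos.add _ _ ihf ihg) fun T => ?_
    rw [Finset.sum_add_distrib]

section Cone_edges

omit [Fintype V] [Fintype E] [DecidableEq E]

private theorem Cone_char_sb (e : E) : IsChar (fun T => sb a b T e) :=
  Cone_char_mul (Cone_char_spin (a e)) (Cone_char_spin (b e))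

private theorem Cone_exp (c s : ℝ) (hs : s = 1 ∨ s = -1) :
    Real.exp (c * s) = Real.cosh c + Real.sinh c * s := by
  rcases hs with rfl | rfl
  · rw [mul_one, mul_one, Real.cosh_add_sinh]
  · rw [mul_neg_one, mul_neg_one, ← sub_eq_add_neg, Real.cosh_sub_sinh]

private theorem Cone_sinh {c : ℝ} (hc : 0 ≤ c) : 0 ≤ Real.sinh c := Real.sinh_nonneg_iff.2 hc

private theorem Cone_cosh (c : ℝ) : 0 ≤ Real.cosh c := (Real.cosh_pos c).le

end Cone_edges

/-- `exp (c s_v s_w) = cosh c + sinh c s_v s_w`. -/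
theorem pos_exp (c : ℝ) (hc : 0 ≤ c) (e : E) : Pos (fun T => Real.exp (c * sb a b T e)) := by
  refine Cone_congr (Pos.add _ _ (Pos.const _ (Cone_cosh c))
    (Pos.base _ (Cone_sinh hc) _ (Cone_char_sb a b e))) fun T => ?_
  exact (Cone_exp c _ ((Cone_char_sb a b e).1 T)).symm

theorem pos_al (B : E → ℝ) (hB : ∀ e, 0 ≤ B e) (e : E) : Pos (fun T => al a b B T e) := by
  have h1 : 0 ≤ Real.cosh (B e) - 1 := sub_nonneg.2 (Real.one_le_cosh _)
  refine Cone_congr (Pos.add _ _ (Pos.const _ h1)
    (Pos.base _ (Cone_sinh (hB e)) _ (Cone_char_sb a b e))) fun T => ?_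
  unfold al
  rw [Cone_exp (B e) _ ((Cone_char_sb a b e).1 T)]
  ring

theorem pos2_ga (J : E → ℝ) (hJ : ∀ e, 0 ≤ J e) (e : E) :
    Pos2 (fun T U => ga a b J T U e) := by
  have hc := Real.one_le_cosh (J e)
  have hs := Cone_sinh (hJ e)
  have hc0 := Cone_cosh (J e)
  have h1 : 0 ≤ Real.cosh (J e) * Real.cosh (J e) - 1 := by nlinarith
  have hsb := Cone_char_sb a b e
  refine Cone_congr2 (Pos2.add _ _ (Pos2.add _ _ (Cone_const2 _ h1)
    (Pos2.base _ (mul_nonneg hc0 hs) _ _ hsb Cone_char_one))
    (Pos2.add _ _ (Pos2.base _ (mul_nonneg hc0 hs) _ _ Cone_char_one hsb)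
      (Pos2.base _ (mul_nonneg hs hs) _ _ hsb hsb))) fun T U => ?_
  show Real.cosh (J e) * Real.cosh (J e) - 1 +
      Real.cosh (J e) * Real.sinh (J e) * (sb a b T e * 1) +
      (Real.cosh (J e) * Real.sinh (J e) * (1 * sb a b U e) +
      Real.sinh (J e) * Real.sinh (J e) * (sb a b T e * sb a b U e)) = ga a b J T U e
  unfold ga
  rw [mul_add, Real.exp_add, Cone_exp (J e) _ (hsb.1 T), Cone_exp (J e) _ (hsb.1 U)]
  ring

theorem pos2_mx (c : ℝ) (hc : 0 ≤ c) (P : Finset V) (e : E) :
    Pos2 (fun T U => Real.exp (c * mx a b P T U e)) := by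
  by_cases h : a e ∈ P
  · refine Cone_congr2 (Pos2.add _ _ (Cone_const2 _ (Cone_cosh c))
      (Pos2.base _ (Cone_sinh hc) _ _ (Cone_char_spin (a e)) (Cone_char_spin (b e))))
      fun T U => ?_
    unfold mx
    rw [if_pos h, Cone_exp c]
    rcases (Cone_char_spin (a e)).1 T with h1 | h1 <;>
      rcases (Cone_char_spin (b e)).1 U with h2 | h2 <;>
      · have h1' : spin T (a e) = _ := h1
        have h2' : spin U (b e) = _ := h2
        rw [h1', h2']
        norm_num
  · refine Cone_congr2 (Pos2.add _ _ (Cone_const2 _ (Cone_cosh c))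
      (Pos2.base _ (Cone_sinh hc) _ _ (Cone_char_spin (b e)) (Cone_char_spin (a e))))
      fun T U => ?_
    unfold mx
    rw [if_neg h, Cone_exp c]
    rcases (Cone_char_spin (b e)).1 T with h1 | h1 <;>
      rcases (Cone_char_spin (a e)).1 U with h2 | h2 <;>
      · have h1' : spin T (b e) = _ := h1
        have h2' : spin U (a e) = _ := h2
        rw [h1', h2']
        norm_num

theorem pos_CC (B : E → ℝ) (hB : ∀ e, 0 ≤ B e) (Q : Finset V) (x : V) :
    Pos (fun T => CC a b (al a b B T) Q x) := by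
  unfold CC
  refine Pos.sum _ _ fun F _ => ?_
  exact Pos.mul (Pos.const _ (ind_nonneg _)) (Pos.prod _ _ fun e _ => pos_al a b B hB e)

theorem pos2_CC (J : E → ℝ) (hJ : ∀ e, 0 ≤ J e) (P : Finset V) (u : V) :
    Pos2 (fun T U => CC a b (ga a b J T U) P u) := by
  unfold CC
  refine Pos2.sum _ _ fun F _ => ?_
  exact Pos2.mul (Cone_const2 _ (ind_nonneg _)) (Pos2.prod _ _ fun e _ => pos2_ga a b J hJ e)

/-- Larger couplings. -/
theorem pos_diff (J J' : E → ℝ) (S : Finset E) (hJ : ∀ e ∈ S, 0 ≤ J e)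
    (hJJ : ∀ e ∈ S, J e ≤ J' e) :
    Pos (fun T => ∏ e ∈ S, Real.exp (J' e * sb a b T e) -
      ∏ e ∈ S, Real.exp (J e * sb a b T e)) := by
  induction S using Finset.induction_on with
  | empty =>
    refine Cone_congr Pos.zero fun T => ?_
    rw [Finset.prod_empty, Finset.prod_empty, sub_self]
  | insert i S hi ih =>
    have hi0 := hJ i (Finset.mem_insert_self i S)
    have hi1 := hJJ i (Finset.mem_insert_self i S)
    have ih' := ih (fun e he => hJ e (Finset.mem_insert_of_mem he))
      (fun e he => hJJ e (Finset.mem_insert_of_mem he))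
    have h1 : 0 ≤ Real.cosh (J' i) - Real.cosh (J i) := by
      refine sub_nonneg.2 (Real.cosh_le_cosh.2 ?_)
      rw [abs_of_nonneg hi0, abs_of_nonneg (hi0.trans hi1)]
      exact hi1
    have h2 : 0 ≤ Real.sinh (J' i) - Real.sinh (J i) := sub_nonneg.2 (Real.sinh_le_sinh.2 hi1)
    have hd : Pos (fun T => Real.exp (J' i * sb a b T i) - Real.exp (J i * sb a b T i)) := by
      refine Cone_congr (Pos.add _ _ (Pos.const _ h1)
        (Pos.base _ h2 _ (Cone_char_sb a b i))) fun T => ?_
      show Real.cosh (J' i) - Real.cosh (J i) +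
        (Real.sinh (J' i) - Real.sinh (J i)) * sb a b T i = _
      rw [Cone_exp (J' i) _ ((Cone_char_sb a b i).1 T), Cone_exp (J i) _ ((Cone_char_sb a b i).1 T)]
      ring
    have hp : Pos (fun T => ∏ e ∈ S, Real.exp (J e * sb a b T e)) :=
      Pos.prod _ _ fun e he => pos_exp a b (J e) (hJ e (Finset.mem_insert_of_mem he)) e
    refine Cone_congr (Pos.add _ _ (Pos.mul (pos_exp a b (J' i) (hi0.trans hi1) i) ih')
      (Pos.mul hd hp)) fun T => ?_
    rw [Finset.prod_insert hi, Finset.prod_insert hi]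
    ring

end Pool.Agent.C1s
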