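import Pool.Agent.TC.LebDefs

/-! Finite part of the inequality
`P^single_{J + J'}(u <-> x) ≥ <s_u s_x>_J <s_u s_x>_{J + J'}`, `0 ≤ J ≤ J'`.
`V` is a finite set of vertices, `E` a finite set of edges with ends `a e`, `b e`; a spin configuration is the
set of its minus spins. -/

set_option autoImplicit false

namespace Pool.Agent.C1s

open Finset Pool.Agent.TC
open Pool.Agent.SRC (ind)

/-- Product of the spins at the ends of the edge `e`. -/
def sb {V E : Type*} [DecidableEq V] (a b : E → V) (T : Finset V) (e : E) : ℝ :=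
  spin T (a e) * spin T (b e)

/-- Ising weight of a configuration. -/
noncomputable def wt {V E : Type*} [DecidableEq V] [Fintype E] (a b : E → V) (K : E → ℝ)
    (T : Finset V) : ℝ := ∏ e, Real.exp (K e * sb a b T e)

/-- Unnormalised Ising expectation of `f`. -/
noncomputable def ZA {V E : Type*} [DecidableEq V] [Fintype V] [Fintype E] (a b : E → V)
    (K : E → ℝ) (f : Finset V → ℝ) : ℝ := ∑ T : Finset V, f T * wt a b K T

/-- The couplings of the edges inside `G`. -/
def res {V E : Type*} [DecidableEq V] (a b : E → V) (K : E → ℝ) (G : Finset V) (e : E) : ℝ :=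
  if a e ∈ G ∧ b e ∈ G then K e else 0

/-- The edges inside `G`. -/
def ins {V E : Type*} [DecidableEq V] [Fintype E] (a b : E → V) (G : Finset V) : Finset E :=
  Finset.univ.filter (fun e => a e ∈ G ∧ b e ∈ G)

/-- The edges with one end in `P` and the other end in `Q`. -/
def cr {V E : Type*} [DecidableEq V] [Fintype E] (a b : E → V) (P Q : Finset V) : Finset E :=
  Finset.univ.filter (fun e => (a e ∈ P ∧ b e ∈ Q) ∨ (a e ∈ Q ∧ b e ∈ P))

/-- For an edge with exactly one end in `P`: the spin `T` at this end times the spin `U` at the other end. -/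
def mx {V E : Type*} [DecidableEq V] (a b : E → V) (P : Finset V) (T U : Finset V) (e : E) : ℝ :=
  if a e ∈ P then spin T (a e) * spin U (b e) else spin T (b e) * spin U (a e)

/-- Cluster of `u` in the edge set `F`. -/
noncomputable def cl {V E : Type*} [DecidableEq V] [Fintype V] (a b : E → V) (F : Finset E)
    (u : V) : Finset V := by
  classical exact Finset.univ.filter (fun v => Cn a b (fun e => e ∈ F) u v)

theorem mem_cl {V E : Type*} [DecidableEq V] [Fintype V] (a b : E → V) (F : Finset E)
    (u v : V) : v ∈ cl a b F u ↔ Cn a b (fun e => e ∈ F) u v := by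
  unfold cl
  simp

/-- Sum over the edge sets inside `P` for which the cluster of `u` is `P`. -/
noncomputable def CC {V E : Type*} [DecidableEq V] [Fintype V] [Fintype E] (a b : E → V)
    (α : E → ℝ) (P : Finset V) (u : V) : ℝ :=
  ∑ F ∈ (ins a b P).powerset, ind (cl a b F u = P) * ∏ e ∈ F, α e

/-- Edge weights of a single current in trace form. -/
noncomputable def al {V E : Type*} [DecidableEq V] (a b : E → V) (B : E → ℝ) (T : Finset V)
    (e : E) : ℝ := Real.exp (B e * sb a b T e) - 1

/-- Edge weights of a pair of currents in trace form. -/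
noncomputable def ga {V E : Type*} [DecidableEq V] (a b : E → V) (J : E → ℝ) (T U : Finset V)
    (e : E) : ℝ := Real.exp (J e * (sb a b T e + sb a b U e)) - 1

/-- The term of the cluster `P` in the right-hand side. -/
noncomputable def RP {V E : Type*} [DecidableEq V] [Fintype V] [Fintype E] (a b : E → V)
    (J J' : E → ℝ) (u : V) (P : Finset V) : ℝ :=
  ∑ T : Finset V, ∑ U : Finset V, CC a b (ga a b J T U) P u *
    (∏ e ∈ ins a b Pᶜ, (1 + ga a b J T U e)) * ∏ e, Real.exp (J' e * sb a b T e)

/-- The term of the clusters `P` and `Q` in the left-hand side (before the substitution). -/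
noncomputable def LP {V E : Type*} [DecidableEq V] [Fintype V] [Fintype E] [DecidableEq E]
    (a b : E → V) (J J' : E → ℝ) (u x : V) (P Q : Finset V) : ℝ :=
  ∑ T : Finset V, ∑ U : Finset V, CC a b (al a b (fun e => J e + J' e) T) Q x *
    CC a b (ga a b J T U) P u *
    (∏ e ∈ ins a b (P ∪ Q)ᶜ, (1 + ga a b J T U e)) *
    (∏ e ∈ ins a b Qᶜ, Real.exp (J' e * sb a b T e)) *
    ∏ e ∈ (ins a b Qᶜ)ᶜ, Real.exp (J e * sb a b U e)

/-- Nonnegative combinations of characters. -/
inductive Pos {V : Type*} [DecidableEq V] : (Finset V → ℝ) → Prop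
  | base (c : ℝ) (hc : 0 ≤ c) (χ : Finset V → ℝ) (hχ : IsChar χ) : Pos (fun T => c * χ T)
  | add (f g : Finset V → ℝ) (hf : Pos f) (hg : Pos g) : Pos (fun T => f T + g T)

/-- Nonnegative combinations of products of characters of two configurations. -/
inductive Pos2 {V : Type*} [DecidableEq V] : (Finset V → Finset V → ℝ) → Prop
  | base (c : ℝ) (hc : 0 ≤ c) (χ ψ : Finset V → ℝ) (hχ : IsChar χ) (hψ : IsChar ψ) :
      Pos2 (fun T U => c * (χ T * ψ U))
  | add (f g : Finset V → Finset V → ℝ) (hf : Pos2 f) (hg : Pos2 g) :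
      Pos2 (fun T U => f T U + g T U)

end Pool.Agent.C1s
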