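import Pool.Agent.C1s.Defs

set_option autoImplicit false

namespace Pool.Agent.C1s

open Finset Pool.Agent.TC
open Pool.Agent.SRC (ind ind_true ind_false ind_nonneg ind_le_one ind_not ind_congr)

variable {V E : Type*} [Fintype V] [DecidableEq V] [Fintype E] [DecidableEq E] (a b : E → V)

/-- Independence of disjoint sets of spins. -/
theorem indep (Q : Finset V) (f g : Finset V → ℝ) (hf : ∀ T, f (T ∩ Q) = f T)
    (hg : ∀ T, g (T \ Q) = g T) :
    (2 : ℝ) ^ Fintype.card V * ∑ T : Finset V, f T * g T =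
      (∑ T : Finset V, f T) * ∑ T : Finset V, g T := by
  let φ : Finset V × Finset V → Finset V × Finset V := fun p =>
    ((p.1 ∩ Q) ∪ (p.2 \ Q), (p.2 ∩ Q) ∪ (p.1 \ Q))
  have h1 : ∀ A B : Finset V, ((A ∩ Q) ∪ (B \ Q)) ∩ Q = A ∩ Q := by
    intro A B
    ext v
    simp only [Finset.mem_inter, Finset.mem_union, Finset.mem_sdiff]
    tauto
  have h2 : ∀ A B : Finset V, ((A ∩ Q) ∪ (B \ Q)) \ Q = B \ Q := by
    intro A B
    ext v
    simp only [Finset.mem_inter, Finset.mem_union, Finset.mem_sdiff]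
    tauto
  have h3 : ∀ A : Finset V, (A ∩ Q) ∪ (A \ Q) = A := by
    intro A
    ext v
    simp only [Finset.mem_inter, Finset.mem_union, Finset.mem_sdiff]
    tauto
  have hφ : Function.Involutive φ := by
    rintro ⟨A, B⟩
    show (((A ∩ Q) ∪ (B \ Q)) ∩ Q ∪ ((B ∩ Q) ∪ (A \ Q)) \ Q,
      ((B ∩ Q) ∪ (A \ Q)) ∩ Q ∪ ((A ∩ Q) ∪ (B \ Q)) \ Q) = (A, B)
    rw [h1, h2, h1, h2, h3, h3]
  have h : ∑ p : Finset V × Finset V, f p.1 * g p.2 =
      ∑ p : Finset V × Finset V, f p.1 * g p.1 := by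
    refine Fintype.sum_equiv hφ.toPerm _ _ ?_
    rintro ⟨A, B⟩
    show f A * g B = f ((A ∩ Q) ∪ (B \ Q)) * g ((A ∩ Q) ∪ (B \ Q))
    rw [← hf ((A ∩ Q) ∪ (B \ Q)), ← hg ((A ∩ Q) ∪ (B \ Q)), h1, h2, hf, hg]
  rw [Fintype.sum_prod_type, Fintype.sum_prod_type] at h
  rw [Finset.sum_mul_sum, h, Finset.mul_sum]
  refine Finset.sum_congr rfl fun T _ => ?_
  simp

private theorem Dep_spin_inter {Q T : Finset V} {v : V} (h : v ∈ Q) :
    spin (T ∩ Q) v = spin T v := by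
  unfold spin
  simp [h]

private theorem Dep_spin_sdiff {Q T : Finset V} {v : V} (h : v ∉ Q) :
    spin (T \ Q) v = spin T v := by
  unfold spin
  simp [h]

theorem sb_inter (Q T : Finset V) (e : E) (h : a e ∈ Q ∧ b e ∈ Q) :
    sb a b (T ∩ Q) e = sb a b T e := by
  unfold sb
  rw [Dep_spin_inter h.1, Dep_spin_inter h.2]

theorem sb_sdiff (Q T : Finset V) (e : E) (h : a e ∉ Q ∧ b e ∉ Q) :
    sb a b (T \ Q) e = sb a b T e := by
  unfold sb
  rw [Dep_spin_sdiff h.1, Dep_spin_sdiff h.2]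

private theorem Dep_CC_congr (α α' : E → ℝ) (P : Finset V) (u : V)
    (h : ∀ e, a e ∈ P → b e ∈ P → α e = α' e) : CC a b α P u = CC a b α' P u := by
  unfold CC
  refine Finset.sum_congr rfl fun F hF => ?_
  have h1 : ∏ e ∈ F, α e = ∏ e ∈ F, α' e := by
    refine Finset.prod_congr rfl fun e he => ?_
    have h2 := Finset.mem_powerset.1 hF he
    unfold ins at h2
    have h3 := (Finset.mem_filter.1 h2).2
    exact h e h3.1 h3.2
  rw [h1]

/-- Dependence of the cluster sums on the spins. -/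
theorem CC_al_inter (B : E → ℝ) (Q T : Finset V) (x : V) :
    CC a b (al a b B (T ∩ Q)) Q x = CC a b (al a b B T) Q x := by
  refine Dep_CC_congr a b _ _ Q x fun e h1 h2 => ?_
  unfold al
  rw [sb_inter a b Q T e ⟨h1, h2⟩]

theorem CC_ga_inter (J : E → ℝ) (P T U : Finset V) (u : V) :
    CC a b (ga a b J (T ∩ P) U) P u = CC a b (ga a b J T U) P u ∧
    CC a b (ga a b J T (U ∩ P)) P u = CC a b (ga a b J T U) P u := by
  constructor
  · refine Dep_CC_congr a b _ _ P u fun e h1 h2 => ?_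
    unfold ga
    rw [sb_inter a b P T e ⟨h1, h2⟩]
  · refine Dep_CC_congr a b _ _ P u fun e h1 h2 => ?_
    unfold ga
    rw [sb_inter a b P U e ⟨h1, h2⟩]

theorem CC_ga_sdiff (J : E → ℝ) (P Q T U : Finset V) (u : V) (hPQ : Disjoint P Q) :
    CC a b (ga a b J (T \ Q) U) P u = CC a b (ga a b J T U) P u ∧
    CC a b (ga a b J T (U \ Q)) P u = CC a b (ga a b J T U) P u := by
  have hn : ∀ v, v ∈ P → v ∉ Q := fun v hv => Finset.disjoint_left.1 hPQ hv
  constructor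
  · refine Dep_CC_congr a b _ _ P u fun e h1 h2 => ?_
    unfold ga
    rw [sb_sdiff a b Q T e ⟨hn _ h1, hn _ h2⟩]
  · refine Dep_CC_congr a b _ _ P u fun e h1 h2 => ?_
    unfold ga
    rw [sb_sdiff a b Q U e ⟨hn _ h1, hn _ h2⟩]

end Pool.Agent.C1s
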