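import Pool.Agent.C1s.K

set_option autoImplicit false

namespace Pool.Agent.C1s

open Finset Pool.Agent.TC
open Pool.Agent.SRC (ind ind_true ind_false ind_nonneg ind_le_one ind_not ind_congr)

variable {V E : Type*} [Fintype V] [DecidableEq V] [Fintype E] [DecidableEq E] (a b : E → V)

private theorem lx_sym (F : Finset E) (u x : V) :
    Cn a b (fun e => e ∈ F) u x ↔ u ∈ cl a b F x := by
  rw [mem_cl]
  have hs : ∀ p q, Cn a b (fun e => e ∈ F) p q → Cn a b (fun e => e ∈ F) q p := by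
    intro p q h
    unfold Cn at h ⊢
    induction h with
    | refl => exact Relation.ReflTransGen.refl
    | tail _ hs ih =>
      obtain ⟨o, ho, h⟩ := hs
      exact Relation.ReflTransGen.head ⟨o, ho, h.symm⟩ ih
  exact ⟨hs u x, hs x u⟩

private theorem lx_comm (g : Finset V → Finset V → Finset V → Finset V → ℝ) :
    ∑ T : Finset V, ∑ U : Finset V, ∑ Q : Finset V, ∑ P : Finset V, g P Q T U =
      ∑ P : Finset V, ∑ Q : Finset V, ∑ T : Finset V, ∑ U : Finset V, g P Q T U := by
  have h1 : ∀ T : Finset V, ∑ U : Finset V, ∑ Q : Finset V, ∑ P : Finset V, g P Q T U =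
      ∑ P : Finset V, ∑ Q : Finset V, ∑ U : Finset V, g P Q T U := by
    intro T
    calc ∑ U : Finset V, ∑ Q : Finset V, ∑ P : Finset V, g P Q T U
        = ∑ U : Finset V, ∑ P : Finset V, ∑ Q : Finset V, g P Q T U :=
          Finset.sum_congr rfl fun U _ => Finset.sum_comm
      _ = ∑ P : Finset V, ∑ U : Finset V, ∑ Q : Finset V, g P Q T U := Finset.sum_comm
      _ = ∑ P : Finset V, ∑ Q : Finset V, ∑ U : Finset V, g P Q T U :=
          Finset.sum_congr rfl fun P _ => Finset.sum_comm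
  calc ∑ T : Finset V, ∑ U : Finset V, ∑ Q : Finset V, ∑ P : Finset V, g P Q T U
      = ∑ T : Finset V, ∑ P : Finset V, ∑ Q : Finset V, ∑ U : Finset V, g P Q T U :=
        Finset.sum_congr rfl fun T _ => h1 T
    _ = ∑ P : Finset V, ∑ T : Finset V, ∑ Q : Finset V, ∑ U : Finset V, g P Q T U :=
        Finset.sum_comm
    _ = _ := Finset.sum_congr rfl fun P _ => Finset.sum_comm

private theorem lx_one (α : E → ℝ) (u x : V) :
    ∑ Y : Finset E, ind (¬ Cn a b (fun e => e ∈ Y) u x) * ∏ e ∈ Y, α e =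
      ∑ Q : Finset V, if u ∈ Q then 0 else CC a b α Q x * ∏ e ∈ ins a b Qᶜ, (1 + α e) := by
  symm
  have h3 : ∀ Q : Finset V,
      (if u ∈ Q then 0 else CC a b α Q x * ∏ e ∈ ins a b Qᶜ, (1 + α e)) =
      ∑ F : Finset E, (if u ∈ Q then 0 else ind (cl a b F x = Q)) * ∏ e ∈ F, α e := by
    intro Q
    split_ifs
    · simp
    · rw [cluster_sum]
  rw [Finset.sum_congr rfl fun Q _ => h3 Q, Finset.sum_comm]
  refine Finset.sum_congr rfl fun F _ => ?_
  rw [← Finset.sum_mul]
  congr 1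
  rw [Finset.sum_eq_single (cl a b F x)]
  · by_cases hx : u ∈ cl a b F x
    · rw [if_pos hx, ind_false (not_not.2 ((lx_sym a b F u x).2 hx))]
    · rw [if_neg hx, ind_true (fun h => hx ((lx_sym a b F u x).1 h)), ind_true rfl]
  · intro P _ hP
    rw [ind_false (fun h => hP h.symm)]
    split_ifs <;> rfl
  · intro h
    exact absurd (Finset.mem_univ _) h

private theorem lx_two (α : E → ℝ) (u : V) (Q : Finset V) (hu : u ∉ Q) :
    ∏ e ∈ ins a b Qᶜ, (1 + α e) = ∑ P : Finset V, if Disjoint P Q then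
      CC a b α P u * ∏ e ∈ ins a b (P ∪ Q)ᶜ, (1 + α e) else 0 := by
  have h1 : ∏ e ∈ ins a b Qᶜ, (1 + α e) =
      ∏ e, (1 + (fun e => if a e ∉ Q ∧ b e ∉ Q then α e else 0) e) := by
    unfold ins
    rw [Finset.prod_filter]
    refine Finset.prod_congr rfl fun e _ => ?_
    simp only [Finset.mem_compl]
    split_ifs
    · rfl
    · rw [add_zero]
  rw [h1, cluster_total a b _ u]
  refine Finset.sum_congr rfl fun P _ => ?_
  rw [CC_restrict a b α u P Q hu]
  by_cases hd : Disjoint P Q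
  · rw [if_pos hd, if_pos hd]
    congr 1
    unfold ins
    rw [Finset.prod_filter, Finset.prod_filter]
    refine Finset.prod_congr rfl fun e _ => ?_
    simp only [Finset.mem_compl, Finset.mem_union, not_or]
    by_cases q1 : a e ∈ P <;> by_cases q2 : b e ∈ P <;> by_cases q3 : a e ∈ Q <;>
      by_cases q4 : b e ∈ Q <;> simp [q1, q2, q3, q4]
  · rw [if_neg hd, if_neg hd, zero_mul]

private theorem lx_three (J J' : E → ℝ) (u x : V) (Q T U : Finset V) :
    (if u ∈ Q then 0 else CC a b (al a b (fun e => J e + J' e) T) Q x *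
      ∏ e ∈ ins a b Qᶜ, (1 + al a b (fun e => J e + J' e) T e)) *
        ∏ e, Real.exp (J e * sb a b U e) =
    ∑ P : Finset V, if Disjoint P Q then CC a b (al a b (fun e => J e + J' e) T) Q x *
      CC a b (ga a b J T U) P u *
      (∏ e ∈ ins a b (P ∪ Q)ᶜ, (1 + ga a b J T U e)) *
      (∏ e ∈ ins a b Qᶜ, Real.exp (J' e * sb a b T e)) *
      ∏ e ∈ (ins a b Qᶜ)ᶜ, Real.exp (J e * sb a b U e) else 0 := by
  by_cases hu : u ∈ Q
  · rw [if_pos hu, zero_mul]
    symm
    refine Finset.sum_eq_zero fun P _ => ?_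
    by_cases hd : Disjoint P Q
    · rw [if_pos hd, CC_zero a b (ga a b J T U) u P
        (fun h => (Finset.disjoint_left.1 hd) h hu)]
      ring
    · rw [if_neg hd]
  · rw [if_neg hu, ← Finset.prod_mul_prod_compl (ins a b Qᶜ)
      (fun e => Real.exp (J e * sb a b U e))]
    have h1 : (∏ e ∈ ins a b Qᶜ, (1 + al a b (fun e => J e + J' e) T e)) *
        ∏ e ∈ ins a b Qᶜ, Real.exp (J e * sb a b U e) =
        (∏ e ∈ ins a b Qᶜ, (1 + ga a b J T U e)) *
          ∏ e ∈ ins a b Qᶜ, Real.exp (J' e * sb a b T e) := by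
      rw [← Finset.prod_mul_distrib, ← Finset.prod_mul_distrib]
      refine Finset.prod_congr rfl fun e _ => ?_
      unfold al ga
      rw [add_sub_cancel, add_sub_cancel, ← Real.exp_add, ← Real.exp_add]
      congr 1
      ring
    have h2 : CC a b (al a b (fun e => J e + J' e) T) Q x *
        (∏ e ∈ ins a b Qᶜ, (1 + al a b (fun e => J e + J' e) T e)) *
        ((∏ e ∈ ins a b Qᶜ, Real.exp (J e * sb a b U e)) *
          ∏ e ∈ (ins a b Qᶜ)ᶜ, Real.exp (J e * sb a b U e)) =
        CC a b (al a b (fun e => J e + J' e) T) Q x *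
          ((∏ e ∈ ins a b Qᶜ, (1 + ga a b J T U e)) *
            ∏ e ∈ ins a b Qᶜ, Real.exp (J' e * sb a b T e)) *
          ∏ e ∈ (ins a b Qᶜ)ᶜ, Real.exp (J e * sb a b U e) := by
      rw [← h1]
      ring
    rw [h2, lx_two a b (ga a b J T U) u Q hu, Finset.sum_mul, Finset.mul_sum, Finset.sum_mul]
    refine Finset.sum_congr rfl fun P _ => ?_
    split_ifs
    · ring
    · ring

/-- Expansion of the left-hand side over the clusters `Q` of `x` and `P` of `u`. -/
theorem L_expand (J J' : E → ℝ) (u x : V) :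
    (∑ Y : Finset E, ind (¬ Cn a b (fun e => e ∈ Y) u x) *
      ∑ T : Finset V, ∏ e ∈ Y, al a b (fun e => J e + J' e) T e) *
        ∑ U : Finset V, ∏ e, Real.exp (J e * sb a b U e) =
    ∑ P : Finset V, ∑ Q : Finset V, if Disjoint P Q then LP a b J J' u x P Q else 0 := by
  have h1 : (∑ Y : Finset E, ind (¬ Cn a b (fun e => e ∈ Y) u x) *
      ∑ T : Finset V, ∏ e ∈ Y, al a b (fun e => J e + J' e) T e) =
      ∑ T : Finset V, ∑ Q : Finset V, if u ∈ Q then 0 else
        CC a b (al a b (fun e => J e + J' e) T) Q x *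
          ∏ e ∈ ins a b Qᶜ, (1 + al a b (fun e => J e + J' e) T e) := by
    simp only [Finset.mul_sum]
    rw [Finset.sum_comm]
    refine Finset.sum_congr rfl fun T _ => ?_
    exact lx_one a b _ u x
  rw [h1, Finset.sum_mul_sum]
  have h2 : ∀ T U : Finset V, (∑ Q : Finset V, if u ∈ Q then 0 else
        CC a b (al a b (fun e => J e + J' e) T) Q x *
          ∏ e ∈ ins a b Qᶜ, (1 + al a b (fun e => J e + J' e) T e)) *
        ∏ e, Real.exp (J e * sb a b U e) =
      ∑ Q : Finset V, ∑ P : Finset V, if Disjoint P Q then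
      CC a b (al a b (fun e => J e + J' e) T) Q x *
      CC a b (ga a b J T U) P u *
      (∏ e ∈ ins a b (P ∪ Q)ᶜ, (1 + ga a b J T U e)) *
      (∏ e ∈ ins a b Qᶜ, Real.exp (J' e * sb a b T e)) *
      ∏ e ∈ (ins a b Qᶜ)ᶜ, Real.exp (J e * sb a b U e) else 0 := by
    intro T U
    rw [Finset.sum_mul]
    refine Finset.sum_congr rfl fun Q _ => ?_
    exact lx_three a b J J' u x Q T U
  rw [Finset.sum_congr rfl fun T _ => Finset.sum_congr rfl fun U _ => h2 T U]
  have h3 : ∀ P Q : Finset V, (if Disjoint P Q then LP a b J J' u x P Q else 0) =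
      ∑ T : Finset V, ∑ U : Finset V, if Disjoint P Q then
      CC a b (al a b (fun e => J e + J' e) T) Q x *
      CC a b (ga a b J T U) P u *
      (∏ e ∈ ins a b (P ∪ Q)ᶜ, (1 + ga a b J T U e)) *
      (∏ e ∈ ins a b Qᶜ, Real.exp (J' e * sb a b T e)) *
      ∏ e ∈ (ins a b Qᶜ)ᶜ, Real.exp (J e * sb a b U e) else 0 := by
    intro P Q
    by_cases hd : Disjoint P Q
    · simp only [if_pos hd]
      rfl
    · simp only [if_neg hd]
      simp
  rw [Finset.sum_congr rfl fun P _ => Finset.sum_congr rfl fun Q _ => h3 P Q]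
  exact lx_comm (fun P Q T U => if Disjoint P Q then
      CC a b (al a b (fun e => J e + J' e) T) Q x *
      CC a b (ga a b J T U) P u *
      (∏ e ∈ ins a b (P ∪ Q)ᶜ, (1 + ga a b J T U e)) *
      (∏ e ∈ ins a b Qᶜ, Real.exp (J' e * sb a b T e)) *
      ∏ e ∈ (ins a b Qᶜ)ᶜ, Real.exp (J e * sb a b U e) else 0)

end Pool.Agent.C1s
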