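import Pool.Agent.C1s.K

set_option autoImplicit false

namespace Pool.Agent.C1s

open Finset Pool.Agent.TC
open Pool.Agent.SRC (ind ind_true ind_false ind_nonneg ind_le_one ind_not ind_congr)

variable {V E : Type*} [Fintype V] [DecidableEq V] [Fintype E] [DecidableEq E] (a b : E → V)

private theorem rx_spin (T : Finset V) (v : V) : spin T v = 1 ∨ spin T v = -1 := by
  unfold spin
  split_ifs
  · exact Or.inr rfl
  · exact Or.inl rfl

private theorem rx_symm (U C : Finset V) (v : V) :
    spin (symmDiff U C) v = if v ∈ C then -spin U v else spin U v := by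
  unfold spin
  by_cases h1 : v ∈ U <;> by_cases h2 : v ∈ C <;> simp [Finset.mem_symmDiff, h1, h2]

private theorem rx_flip (C : Finset V) (f : Finset V → ℝ) (h : ∀ U, f (symmDiff U C) = -f U) :
    ∑ U : Finset V, f U = 0 := by
  have h1 : ∑ U : Finset V, f (symmDiff U C) = ∑ U : Finset V, f U :=
    Equiv.sum_comp (Function.Involutive.toPerm (fun U : Finset V => symmDiff U C)
      (fun U => symmDiff_symmDiff_cancel_right C U)) f
  rw [Finset.sum_congr rfl fun U _ => h U, Finset.sum_neg_distrib] at h1
  linarith

private theorem rx_num (p q r s : ℝ) (hp : p = 1 ∨ p = -1) (hq : q = 1 ∨ q = -1)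
    (hr : r = 1 ∨ r = -1) (hs : s = 1 ∨ s = -1) (h : p * q + r * s ≠ 0) : p * r = q * s := by
  rcases hp with rfl | rfl <;> rcases hq with rfl | rfl <;> rcases hr with rfl | rfl <;>
    rcases hs with rfl | rfl <;> first
      | (norm_num; done)
      | (exfalso; apply h; norm_num)

private theorem rx_path (J : E → ℝ) (F : Finset E) (T U : Finset V)
    (h : ∏ e ∈ F, ga a b J T U e ≠ 0) (u v : V) (hv : Cn a b (fun e => e ∈ F) u v) :
    spin T v * spin U v = spin T u * spin U u := by
  unfold Cn at hv
  induction hv with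
  | refl => rfl
  | tail _ hs ih =>
    obtain ⟨e, he, hab⟩ := hs
    rw [← ih]
    have h1 : ga a b J T U e ≠ 0 := (Finset.prod_ne_zero_iff.1 h) e he
    have h2 : sb a b T e + sb a b U e ≠ 0 := by
      intro h0
      apply h1
      unfold ga
      rw [h0, mul_zero, Real.exp_zero, sub_self]
    unfold sb at h2
    have h3 := rx_num _ _ _ _ (rx_spin T (a e)) (rx_spin T (b e)) (rx_spin U (a e))
      (rx_spin U (b e)) h2
    rcases hab with ⟨rfl, rfl⟩ | ⟨rfl, rfl⟩
    · exact h3.symm
    · exact h3

private theorem rx_key (J : E → ℝ) (u x : V) (F : Finset E) (T : Finset V) :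
    ∑ U : Finset V, (1 - spin U u * spin U x * (spin T u * spin T x)) *
      ∏ e ∈ F, ga a b J T U e =
    ind (x ∉ cl a b F u) * ∑ U : Finset V, ∏ e ∈ F, ga a b J T U e := by
  by_cases hx : x ∈ cl a b F u
  · rw [ind_false (not_not.2 hx), zero_mul]
    refine Finset.sum_eq_zero fun U _ => ?_
    by_cases h0 : ∏ e ∈ F, ga a b J T U e = 0
    · rw [h0, mul_zero]
    · have h1 := rx_path a b J F T U h0 u x ((mem_cl a b F u x).1 hx)
      have h2 : spin U u * spin U x * (spin T u * spin T x) = 1 := by
        have : spin U u * spin U x * (spin T u * spin T x) =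
          (spin T x * spin U x) * (spin T u * spin U u) := by ring
        rw [this, h1]
        rcases rx_spin T u with q1 | q1 <;> rcases rx_spin U u with q2 | q2 <;>
          rw [q1, q2] <;> norm_num
      rw [h2, sub_self, zero_mul]
  · rw [ind_true hx, one_mul]
    have h3 : ∑ U : Finset V, (spin U u * spin U x * (spin T u * spin T x)) *
        ∏ e ∈ F, ga a b J T U e = 0 := by
      refine rx_flip (cl a b F u) _ fun U => ?_
      have h4 : ∏ e ∈ F, ga a b J T (symmDiff U (cl a b F u)) e = ∏ e ∈ F, ga a b J T U e := by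
        refine Finset.prod_congr rfl fun e he => ?_
        have h5 : sb a b (symmDiff U (cl a b F u)) e = sb a b U e := by
          unfold sb
          rw [rx_symm, rx_symm]
          have h6 := cl_edge a b F u e he
          by_cases h7 : a e ∈ cl a b F u
          · rw [if_pos h7, if_pos (h6.1 h7)]; ring
          · rw [if_neg h7, if_neg (fun h8 => h7 (h6.2 h8))]
        unfold ga
        rw [h5]
      rw [h4, rx_symm, rx_symm, if_pos (self_mem_cl a b F u), if_neg hx]
      ring
    simp only [sub_mul, one_mul, Finset.sum_sub_distrib]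
    rw [h3, sub_zero]

/-- Expansion of the right-hand side over the cluster `P` of `u`. -/
theorem R_expand (J J' : E → ℝ) (u x : V) :
    ∑ T : Finset V, ∑ U : Finset V, (1 - spin U u * spin U x * (spin T u * spin T x)) *
      ((∏ e, Real.exp (J e * sb a b U e)) * ∏ e, Real.exp ((J e + J' e) * sb a b T e)) =
    ∑ P : Finset V, if x ∈ P then 0 else RP a b J J' u P := by
  have hprod : ∀ T U : Finset V,
      (∏ e, Real.exp (J e * sb a b U e)) * ∏ e, Real.exp ((J e + J' e) * sb a b T e) =
      (∑ F : Finset E, ∏ e ∈ F, ga a b J T U e) * ∏ e, Real.exp (J' e * sb a b T e) := by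
    intro T U
    rw [← Finset.powerset_univ, ← Finset.prod_one_add, ← Finset.prod_mul_distrib,
      ← Finset.prod_mul_distrib]
    refine Finset.prod_congr rfl fun e _ => ?_
    unfold ga
    rw [add_sub_cancel, ← Real.exp_add, ← Real.exp_add]
    congr 1
    ring
  have h1 : ∀ T : Finset V,
      ∑ U : Finset V, (1 - spin U u * spin U x * (spin T u * spin T x)) *
        ((∏ e, Real.exp (J e * sb a b U e)) * ∏ e, Real.exp ((J e + J' e) * sb a b T e)) =
      ∑ F : Finset E, ind (x ∉ cl a b F u) *
        ∑ U : Finset V, (∏ e ∈ F, ga a b J T U e) * ∏ e, Real.exp (J' e * sb a b T e) := by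
    intro T
    simp only [hprod]
    calc ∑ U : Finset V, (1 - spin U u * spin U x * (spin T u * spin T x)) *
          ((∑ F : Finset E, ∏ e ∈ F, ga a b J T U e) * ∏ e, Real.exp (J' e * sb a b T e))
        = ∑ U : Finset V, ∑ F : Finset E,
            ((1 - spin U u * spin U x * (spin T u * spin T x)) * ∏ e ∈ F, ga a b J T U e) *
              ∏ e, Real.exp (J' e * sb a b T e) := by
          refine Finset.sum_congr rfl fun U _ => ?_
          rw [← mul_assoc, Finset.mul_sum, Finset.sum_mul]
      _ = ∑ F : Finset E, (∑ U : Finset V,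
            (1 - spin U u * spin U x * (spin T u * spin T x)) * ∏ e ∈ F, ga a b J T U e) *
              ∏ e, Real.exp (J' e * sb a b T e) := by
          rw [Finset.sum_comm]
          refine Finset.sum_congr rfl fun F _ => ?_
          rw [Finset.sum_mul]
      _ = _ := by
          refine Finset.sum_congr rfl fun F _ => ?_
          rw [rx_key, mul_assoc, Finset.sum_mul]
  rw [Finset.sum_congr rfl fun T _ => h1 T]
  have h2 : ∀ P : Finset V, RP a b J J' u P = ∑ T : Finset V, ∑ F : Finset E,
      ind (cl a b F u = P) *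
        ∑ U : Finset V, (∏ e ∈ F, ga a b J T U e) * ∏ e, Real.exp (J' e * sb a b T e) := by
    intro P
    unfold RP
    refine Finset.sum_congr rfl fun T _ => ?_
    simp only [← cluster_sum, Finset.sum_mul, Finset.mul_sum]
    rw [Finset.sum_comm]
    refine Finset.sum_congr rfl fun F _ => Finset.sum_congr rfl fun U _ => ?_
    ring
  simp only [h2]
  have h3 : ∀ P : Finset V, (if x ∈ P then 0 else ∑ T : Finset V, ∑ F : Finset E,
      ind (cl a b F u = P) *
        ∑ U : Finset V, (∏ e ∈ F, ga a b J T U e) * ∏ e, Real.exp (J' e * sb a b T e)) =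
      ∑ T : Finset V, ∑ F : Finset E, (if x ∈ P then 0 else ind (cl a b F u = P)) *
        ∑ U : Finset V, (∏ e ∈ F, ga a b J T U e) * ∏ e, Real.exp (J' e * sb a b T e) := by
    intro P
    split_ifs
    · simp
    · rfl
  simp only [h3]
  symm
  rw [Finset.sum_comm]
  refine Finset.sum_congr rfl fun T _ => ?_
  rw [Finset.sum_comm]
  refine Finset.sum_congr rfl fun F _ => ?_
  rw [← Finset.sum_mul]
  congr 1
  rw [Finset.sum_eq_single (cl a b F u)]
  · by_cases hx : x ∈ cl a b F u
    · rw [if_pos hx, ind_false (not_not.2 hx)]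
    · rw [if_neg hx, ind_true hx, ind_true rfl]
  · intro P _ hP
    rw [ind_false (fun h => hP h.symm)]
    split_ifs <;> rfl
  · intro h
    exact absurd (Finset.mem_univ _) h

end Pool.Agent.C1s
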