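import Pool.Agent.C1s.K
import Pool.Agent.C1s.Dep

set_option autoImplicit false

namespace Pool.Agent.C1s

open Finset Pool.Agent.TC
open Pool.Agent.SRC (ind ind_true ind_false ind_nonneg ind_le_one ind_not ind_congr)

variable {V E : Type*} [Fintype V] [DecidableEq V] [Fintype E] [DecidableEq E] (a b : E → V)

private theorem SumQ_wt (B : E → ℝ) (P Q T : Finset V) :
    ∏ e ∈ ins a b Qᶜ, (1 + if a e ∉ P ∧ b e ∉ P then al a b B T e else 0) =
      wt a b (res a b B (P ∪ Q)ᶜ) T := by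
  unfold wt ins
  rw [Finset.prod_filter]
  refine Finset.prod_congr rfl fun e _ => ?_
  unfold res al
  simp only [Finset.mem_compl, Finset.mem_union, not_or]
  by_cases h1 : a e ∉ Q ∧ b e ∉ Q
  · rw [if_pos h1]
    by_cases h2 : a e ∉ P ∧ b e ∉ P
    · rw [if_pos h2, if_pos ⟨⟨h2.1, h1.1⟩, ⟨h2.2, h1.2⟩⟩]
      ring
    · rw [if_neg h2, if_neg (fun h => h2 ⟨h.1.1, h.2.1⟩)]
      simp
  · rw [if_neg h1, if_neg (fun h => h1 ⟨h.1.2, h.2.2⟩)]
    simp

private theorem SumQ_full (B : E → ℝ) (P T : Finset V) :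
    wt a b (res a b B Pᶜ) T =
      ∏ e, (1 + if a e ∉ P ∧ b e ∉ P then al a b B T e else 0) := by
  unfold wt
  refine Finset.prod_congr rfl fun e _ => ?_
  unfold res al
  simp only [Finset.mem_compl]
  by_cases h2 : a e ∉ P ∧ b e ∉ P
  · rw [if_pos h2, if_pos h2]
    ring
  · rw [if_neg h2, if_neg h2]
    simp

private theorem SumQ_dep (B : E → ℝ) (P Q T : Finset V) :
    wt a b (res a b B (P ∪ Q)ᶜ) (T \ Q) = wt a b (res a b B (P ∪ Q)ᶜ) T := by
  unfold wt
  refine Finset.prod_congr rfl fun e _ => ?_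
  unfold res
  by_cases h : a e ∈ (P ∪ Q)ᶜ ∧ b e ∈ (P ∪ Q)ᶜ
  · rw [if_pos h, sb_sdiff a b Q T e]
    simp only [Finset.mem_compl, Finset.mem_union, not_or] at h
    exact ⟨h.1.2, h.2.2⟩
  · rw [if_neg h]
    simp

/-- Sum over the cluster `Q` of `x` in the complement of `P`. -/
theorem sum_Q (B : E → ℝ) (x : V) (P : Finset V) (hx : x ∉ P) :
    ∑ Q : Finset V, (if Disjoint P Q then (∑ T : Finset V, CC a b (al a b B T) Q x) *
      ZA a b (res a b B (P ∪ Q)ᶜ) (fun _ => 1) else 0) =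
    (2 : ℝ) ^ Fintype.card V * ZA a b (res a b B Pᶜ) (fun _ => 1) := by
  have h1 : ∀ T : Finset V, wt a b (res a b B Pᶜ) T =
      ∑ Q : Finset V, if Disjoint P Q then
        CC a b (al a b B T) Q x * wt a b (res a b B (P ∪ Q)ᶜ) T else 0 := by
    intro T
    rw [SumQ_full, cluster_total a b _ x]
    refine Finset.sum_congr rfl fun Q _ => ?_
    rw [CC_restrict a b (al a b B T) x Q P hx, SumQ_wt]
    by_cases h : Disjoint P Q
    · rw [if_pos h, if_pos h.symm]
    · rw [if_neg h, if_neg (fun h' => h h'.symm), zero_mul]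
  unfold ZA
  simp only [one_mul]
  rw [Finset.sum_congr rfl fun T _ => h1 T, Finset.sum_comm, Finset.mul_sum]
  refine Finset.sum_congr rfl fun Q _ => ?_
  by_cases h : Disjoint P Q
  · simp only [if_pos h]
    rw [indep Q (fun T => CC a b (al a b B T) Q x) (fun T => wt a b (res a b B (P ∪ Q)ᶜ) T)
      (fun T => CC_al_inter a b B Q T x) (fun T => SumQ_dep a b B P Q T)]
  · simp only [if_neg h]
    simp

end Pool.Agent.C1s
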