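import Pool.Agent.C1s.Fix
import Pool.Agent.C1s.SumQ
import Pool.Agent.C1s.Rx
import Pool.Agent.C1s.Lx

set_option autoImplicit false

namespace Pool.Agent.C1s

open Finset Pool.Agent.TC
open Pool.Agent.SRC (ind ind_true ind_false ind_nonneg ind_le_one ind_not ind_congr)

variable {V E : Type*} [Fintype V] [DecidableEq V] [Fintype E] [DecidableEq E] (a b : E → V)

private theorem FI_LP_u (J J' : E → ℝ) (u x : V) (P Q : Finset V) (hu : u ∉ P) :
    LP a b J J' u x P Q = 0 := by
  unfold LP
  refine Finset.sum_eq_zero fun T _ => Finset.sum_eq_zero fun U _ => ?_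
  rw [CC_zero a b (ga a b J T U) u P hu]
  ring

private theorem FI_LP_x (J J' : E → ℝ) (u x : V) (P Q : Finset V) (hx : x ∉ Q) :
    LP a b J J' u x P Q = 0 := by
  unfold LP
  refine Finset.sum_eq_zero fun T _ => Finset.sum_eq_zero fun U _ => ?_
  rw [CC_zero a b _ x Q hx]
  ring

private theorem FI_RP_u (J J' : E → ℝ) (u : V) (P : Finset V) (hu : u ∉ P) :
    RP a b J J' u P = 0 := by
  unfold RP
  refine Finset.sum_eq_zero fun T _ => Finset.sum_eq_zero fun U _ => ?_
  rw [CC_zero a b (ga a b J T U) u P hu]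
  ring

/-- The finite inequality. -/
theorem finite_ineq (J J' : E → ℝ) (hJ : ∀ e, 0 ≤ J e) (hJJ : ∀ e, J e ≤ J' e) (u x : V) :
    (∑ Y : Finset E, ind (¬ Cn a b (fun e => e ∈ Y) u x) *
      ∑ T : Finset V, ∏ e ∈ Y, al a b (fun e => J e + J' e) T e) *
        ∑ U : Finset V, ∏ e, Real.exp (J e * sb a b U e) ≤
    ∑ T : Finset V, ∑ U : Finset V, (1 - spin U u * spin U x * (spin T u * spin T x)) *
      ((∏ e, Real.exp (J e * sb a b U e)) * ∏ e, Real.exp ((J e + J' e) * sb a b T e)) := by
  rw [L_expand, R_expand]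
  refine Finset.sum_le_sum fun P _ => ?_
  by_cases hu : u ∈ P
  · by_cases hx : x ∈ P
    · rw [if_pos hx]
      refine le_of_eq (Finset.sum_eq_zero fun Q _ => ?_)
      by_cases h : Disjoint P Q
      · rw [if_pos h]
        exact FI_LP_x a b J J' u x P Q (fun hQ => Finset.disjoint_left.1 h hx hQ)
      · rw [if_neg h]
    · rw [if_neg hx]
      have hc : 0 < (2 : ℝ) ^ Fintype.card V *
          ZA a b (res a b (fun e => J e + J' e) Pᶜ) (fun _ => 1) :=
        mul_pos (by positivity) (ZA_one_pos a b _)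
      refine le_of_mul_le_mul_left ?_ hc
      rw [Finset.mul_sum]
      have h2 : (2 : ℝ) ^ Fintype.card V *
          ZA a b (res a b (fun e => J e + J' e) Pᶜ) (fun _ => 1) * RP a b J J' u P =
          ∑ Q : Finset V, (if Disjoint P Q then
            (∑ T : Finset V, CC a b (al a b (fun e => J e + J' e) T) Q x) *
            ZA a b (res a b (fun e => J e + J' e) (P ∪ Q)ᶜ) (fun _ => 1) else 0) *
            RP a b J J' u P := by
        rw [← sum_Q a b (fun e => J e + J' e) x P hx, Finset.sum_mul]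
      rw [h2]
      refine Finset.sum_le_sum fun Q _ => ?_
      by_cases h : Disjoint P Q
      · rw [if_pos h, if_pos h]
        exact fixed_PQ a b J J' hJ hJJ u x P Q h hu
      · rw [if_neg h, if_neg h]
        simp
  · have h1 : ∑ Q : Finset V, (if Disjoint P Q then LP a b J J' u x P Q else 0) = 0 := by
      refine Finset.sum_eq_zero fun Q _ => ?_
      rw [FI_LP_u a b J J' u x P Q hu]
      simp
    rw [h1, FI_RP_u a b J J' u P hu]
    simp

end Pool.Agent.C1s
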