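import Pool.Agent.C1s.Cone
import Pool.Agent.TC.L0
import Pool.Agent.TC.L1

set_option autoImplicit false

namespace Pool.Agent.C1s

open Finset Pool.Agent.TC
open Pool.Agent.SRC (ind ind_true ind_false ind_nonneg ind_le_one ind_not ind_congr)

variable {V E : Type*} [Fintype V] [DecidableEq V] [Fintype E] [DecidableEq E] (a b : E → V)

omit [DecidableEq E] in
private theorem Gks_ZA (K : E → ℝ) (f : Finset V → ℝ) :
    ZA a b K f = GZ Finset.univ Finset.univ (fun (e : E) (T : Finset V) => sb a b T e) K f := by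
  unfold ZA GZ wt
  rw [Finset.powerset_univ]
  refine Finset.sum_congr rfl fun T _ => ?_
  rw [Real.exp_sum]

omit [Fintype V] [Fintype E] [DecidableEq E] in
private theorem Gks_char (e : E) : IsChar (fun T : Finset V => sb a b T e) := by
  unfold sb
  exact isChar_mul _ _ (isChar_spin _) (isChar_spin _)

omit [DecidableEq E] in
private theorem Gks_char_nonneg (K : E → ℝ) (hK : ∀ e, 0 ≤ K e) (χ : Finset V → ℝ) (hχ : IsChar χ) :
    0 ≤ ZA a b K χ := by
  rw [Gks_ZA]
  exact griffiths1 _ _ _ (fun e _ => Gks_char a b e) K (fun e _ => hK e) χ hχ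

omit [DecidableEq E] in
private theorem Gks_smul (K : E → ℝ) (c : ℝ) (f : Finset V → ℝ) :
    ZA a b K (fun T => c * f T) = c * ZA a b K f := by
  unfold ZA
  rw [Finset.mul_sum]
  exact Finset.sum_congr rfl fun T _ => by ring

omit [DecidableEq E] in
private theorem Gks_add (K : E → ℝ) (f g : Finset V → ℝ) :
    ZA a b K (fun T => f T + g T) = ZA a b K f + ZA a b K g := by
  unfold ZA
  rw [← Finset.sum_add_distrib]
  exact Finset.sum_congr rfl fun T _ => by ring

/-- Griffiths I. -/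
theorem gks_nonneg (K : E → ℝ) (hK : ∀ e, 0 ≤ K e) (f : Finset V → ℝ) (hf : Pos f) :
    0 ≤ ZA a b K f := by
  induction hf with
  | base c hc χ hχ =>
    rw [Gks_smul]
    exact mul_nonneg hc (Gks_char_nonneg a b K hK χ hχ)
  | add f g _ _ ihf ihg =>
    rw [Gks_add]
    exact add_nonneg ihf ihg

/-- The partition function is positive. -/
theorem ZA_one_pos (K : E → ℝ) : 0 < ZA a b K (fun _ => 1) := by
  unfold ZA wt
  refine Finset.sum_pos (fun T _ => ?_) ⟨∅, Finset.mem_univ _⟩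
  rw [one_mul]
  exact Finset.prod_pos fun e _ => Real.exp_pos _

omit [DecidableEq E] in
private theorem Gks_mono1 (K K' : E → ℝ) (h0 : ∀ e, 0 ≤ K e) (h1 : ∀ e, K e ≤ K' e)
    (χ : Finset V → ℝ) (hχ : IsChar χ) :
    ZA a b K χ * ZA a b K' (fun _ => 1) ≤ ZA a b K' χ * ZA a b K (fun _ => 1) := by
  have h := ginibre (Finset.univ : Finset V) Finset.univ (Finset.Subset.refl _)
    (Finset.univ : Finset E) (fun (e : E) (T : Finset V) => sb a b T e)
    (fun e _ => Gks_char a b e) K' K (fun e _ => h0 e) (fun e _ => Or.inl (h1 e)) χ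
    (fun _ => 1) hχ isChar_one 1 (Or.inl rfl)
  simp only [mul_one, one_mul] at h
  simp only [Gks_ZA]
  nlinarith

omit [DecidableEq E] in
private theorem Gks_diag1 (K : E → ℝ) (h0 : ∀ e, 0 ≤ K e)
    (χ ψ : Finset V → ℝ) (hχ : IsChar χ) (hψ : IsChar ψ) :
    ZA a b K χ * ZA a b K ψ ≤ ZA a b K (fun T => χ T * ψ T) * ZA a b K (fun _ => 1) := by
  have h := ginibre (Finset.univ : Finset V) Finset.univ (Finset.Subset.refl _)
    (Finset.univ : Finset E) (fun (e : E) (T : Finset V) => sb a b T e)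
    (fun e _ => Gks_char a b e) K K (fun e _ => h0 e) (fun e _ => Or.inl le_rfl) χ
    ψ hχ hψ (-1) (Or.inr rfl)
  simp only [Gks_ZA]
  nlinarith

omit [DecidableEq E] in
private theorem Gks_split (K₁ K₂ : E → ℝ) (c : ℝ) (f g : Finset V → ℝ) :
    (∑ T : Finset V, ∑ U : Finset V, (c * (f T * g U)) * (wt a b K₁ T * wt a b K₂ U)) =
      c * (ZA a b K₁ f * ZA a b K₂ g) := by
  unfold ZA
  rw [Finset.sum_mul_sum, Finset.mul_sum]
  refine Finset.sum_congr rfl fun T _ => ?_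
  rw [Finset.mul_sum]
  exact Finset.sum_congr rfl fun U _ => by ring

omit [DecidableEq E] in
private theorem Gks_add2 (K₁ K₂ : E → ℝ) (f g : Finset V → Finset V → ℝ) :
    (∑ T : Finset V, ∑ U : Finset V, (f T U + g T U) * (wt a b K₁ T * wt a b K₂ U)) =
      (∑ T : Finset V, ∑ U : Finset V, f T U * (wt a b K₁ T * wt a b K₂ U)) +
      ∑ T : Finset V, ∑ U : Finset V, g T U * (wt a b K₁ T * wt a b K₂ U) := by
  rw [← Finset.sum_add_distrib]
  refine Finset.sum_congr rfl fun T _ => ?_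
  rw [← Finset.sum_add_distrib]
  exact Finset.sum_congr rfl fun U _ => by ring

/-- Griffiths II, monotonicity in the couplings, for two independent configurations. -/
theorem gks_mono (K₁ K₁' K₂ K₂' : E → ℝ) (h1 : ∀ e, 0 ≤ K₁ e) (h1' : ∀ e, K₁ e ≤ K₁' e)
    (h2 : ∀ e, 0 ≤ K₂ e) (h2' : ∀ e, K₂ e ≤ K₂' e) (h : Finset V → Finset V → ℝ) (hh : Pos2 h) :
    (∑ T : Finset V, ∑ U : Finset V, h T U * (wt a b K₁ T * wt a b K₂ U)) *
      (ZA a b K₁' (fun _ => 1) * ZA a b K₂' (fun _ => 1)) ≤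
    (∑ T : Finset V, ∑ U : Finset V, h T U * (wt a b K₁' T * wt a b K₂' U)) *
      (ZA a b K₁ (fun _ => 1) * ZA a b K₂ (fun _ => 1)) := by
  induction hh with
  | base c hc χ ψ hχ hψ =>
    rw [Gks_split, Gks_split]
    have k1 := Gks_mono1 a b K₁ K₁' h1 h1' χ hχ
    have k2 := Gks_mono1 a b K₂ K₂' h2 h2' ψ hψ
    have p1 : 0 ≤ ZA a b K₂ ψ * ZA a b K₂' (fun _ => 1) :=
      mul_nonneg (Gks_char_nonneg a b K₂ h2 ψ hψ) (ZA_one_pos a b K₂').le
    have p2 : 0 ≤ ZA a b K₁' χ * ZA a b K₁ (fun _ => 1) :=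
      mul_nonneg (Gks_char_nonneg a b K₁' (fun e => (h1 e).trans (h1' e)) χ hχ)
        (ZA_one_pos a b K₁).le
    have k3 := mul_le_mul k1 k2 p1 p2
    calc c * (ZA a b K₁ χ * ZA a b K₂ ψ) * (ZA a b K₁' (fun _ => 1) * ZA a b K₂' (fun _ => 1))
        = c * (ZA a b K₁ χ * ZA a b K₁' (fun _ => 1) *
            (ZA a b K₂ ψ * ZA a b K₂' (fun _ => 1))) := by ring
      _ ≤ c * (ZA a b K₁' χ * ZA a b K₁ (fun _ => 1) *
            (ZA a b K₂' ψ * ZA a b K₂ (fun _ => 1))) := mul_le_mul_of_nonneg_left k3 hc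
      _ = c * (ZA a b K₁' χ * ZA a b K₂' ψ) *
            (ZA a b K₁ (fun _ => 1) * ZA a b K₂ (fun _ => 1)) := by ring
  | add f g _ _ ihf ihg =>
    rw [Gks_add2, Gks_add2, add_mul, add_mul]
    exact add_le_add ihf ihg

/-- Griffiths II, product form. -/
theorem gks_diag (K : E → ℝ) (hK : ∀ e, 0 ≤ K e) (h : Finset V → Finset V → ℝ) (hh : Pos2 h) :
    ∑ T : Finset V, ∑ U : Finset V, h T U * (wt a b K T * wt a b K U) ≤
      ZA a b K (fun T => h T T) * ZA a b K (fun _ => 1) := by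
  induction hh with
  | base c hc χ ψ hχ hψ =>
    rw [Gks_split, Gks_smul, mul_assoc]
    exact mul_le_mul_of_nonneg_left (Gks_diag1 a b K hK χ ψ hχ hψ) hc
  | add f g _ _ ihf ihg =>
    rw [Gks_add2, Gks_add, add_mul]
    exact add_le_add ihf ihg

end Pool.Agent.C1s
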