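import Pool.Agent.C1s.Norm
import Pool.Agent.C1s.Gks

set_option autoImplicit false

namespace Pool.Agent.C1s

open Finset Pool.Agent.TC
open Pool.Agent.SRC (ind ind_true ind_false ind_nonneg ind_le_one ind_not ind_congr)

variable {V E : Type*} [Fintype V] [DecidableEq V] [Fintype E] [DecidableEq E] (a b : E → V)

private theorem fix_cr (P Q : Finset V) (hPQ : Disjoint P Q) (f : E → ℝ) :
    ∏ e ∈ (ins a b Pᶜ)ᶜ, f e =
      (∏ e ∈ ins a b Qᶜ \ ins a b Pᶜ, f e) * ∏ e ∈ cr a b P Q, f e := by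
  have hd : Disjoint (ins a b Qᶜ \ ins a b Pᶜ) (cr a b P Q) := by
    rw [Finset.disjoint_left]
    intro e he h
    unfold ins cr at *
    simp only [Finset.mem_sdiff, Finset.mem_filter, Finset.mem_univ, true_and,
      Finset.mem_compl] at he h
    rcases h with h | h
    · exact he.1.2 h.2
    · exact he.1.1 h.1
  have hu : (ins a b Pᶜ)ᶜ = (ins a b Qᶜ \ ins a b Pᶜ) ∪ cr a b P Q := by
    ext e
    have h1 : a e ∈ P → a e ∉ Q := fun h => Finset.disjoint_left.mp hPQ h
    have h2 : b e ∈ P → b e ∉ Q := fun h => Finset.disjoint_left.mp hPQ h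
    unfold ins cr
    simp only [Finset.mem_sdiff, Finset.mem_filter, Finset.mem_univ, true_and,
      Finset.mem_compl, Finset.mem_union]
    tauto
  rw [hu, Finset.prod_union hd]

/-- The inequality for fixed `P` and `Q`. -/
theorem fixed_PQ (J J' : E → ℝ) (hJ : ∀ e, 0 ≤ J e) (hJJ : ∀ e, J e ≤ J' e) (u x : V)
    (P Q : Finset V) (hPQ : Disjoint P Q) (hu : u ∈ P) :
    (2 : ℝ) ^ Fintype.card V * ZA a b (res a b (fun e => J e + J' e) Pᶜ) (fun _ => 1) *
        LP a b J J' u x P Q ≤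
      (∑ T : Finset V, CC a b (al a b (fun e => J e + J' e) T) Q x) *
        ZA a b (res a b (fun e => J e + J' e) (P ∪ Q)ᶜ) (fun _ => 1) * RP a b J J' u P := by
  have hJ' : ∀ e, 0 ≤ J' e := fun e => (hJ e).trans (hJJ e)
  have hB : ∀ e, 0 ≤ J e + J' e := fun e => add_nonneg (hJ e) (hJ' e)
  have hL := LP_norm a b J J' u x P Q hPQ hu
  have hR := RP_norm a b J J' u P
  have hc : 0 ≤ ∑ T : Finset V, CC a b (al a b (fun e => J e + J' e) T) Q x :=
    Pos.sum_nonneg (pos_CC a b _ hB Q x)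
  have hZG := ZA_one_pos a b (res a b (fun e => J e + J' e) Pᶜ)
  have hZX := ZA_one_pos a b (res a b (fun e => J e + J' e) (P ∪ Q)ᶜ)
  have hZJ := ZA_one_pos a b (res a b J Pᶜ)
  have hC : Pos (fun T => ∑ U' : Finset V, CC a b (ga a b J T U') P u) :=
    Pos2.sum_right (pos2_CC a b J hJ P u)
  have hE : ∀ S : Finset E, Pos (fun T => ∏ e ∈ S, Real.exp (J' e * sb a b T e)) := fun S =>
    Pos.prod S _ fun e _ => pos_exp a b (J' e) (hJ' e) e
  have hM : Pos2 (fun T U => ∏ e ∈ cr a b P Q, Real.exp (J e * mx a b P T U e)) :=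
    Pos2.prod _ _ fun e _ => pos2_mx a b (J e) (hJ e) P e
  have hh : Pos2 (fun T U => (∑ U' : Finset V, CC a b (ga a b J T U') P u) *
      (∏ e ∈ ins a b Qᶜ \ ins a b Pᶜ, Real.exp (J' e * sb a b T e)) *
      ∏ e ∈ cr a b P Q, Real.exp (J e * mx a b P T U e)) :=
    Pos2.mul (Pos2.mul (Pos.left hC) (Pos.left (hE _))) hM
  have hres0 : ∀ (K : E → ℝ) (G : Finset V), (∀ e, 0 ≤ K e) → ∀ e, 0 ≤ res a b K G e := by
    intro K G hK e
    unfold res
    split_ifs
    · exact hK e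
    · exact le_rfl
  have hmono := gks_mono a b (res a b (fun e => J e + J' e) (P ∪ Q)ᶜ)
    (res a b (fun e => J e + J' e) Pᶜ) (res a b J Pᶜ) (res a b (fun e => J e + J' e) Pᶜ)
    (hres0 _ _ hB) (by
      intro e
      unfold res
      by_cases h1 : a e ∈ (P ∪ Q)ᶜ ∧ b e ∈ (P ∪ Q)ᶜ
      · rw [if_pos h1, if_pos]
        simp only [Finset.mem_compl, Finset.mem_union, not_or] at h1 ⊢
        exact ⟨h1.1.1, h1.2.1⟩
      · rw [if_neg h1]
        split_ifs
        · exact hB e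
        · exact le_rfl) (hres0 _ _ hJ) (by
      intro e
      unfold res
      split_ifs
      · have := hJ' e
        linarith
      · exact le_rfl) _ hh
  have hdiag := gks_diag a b (res a b (fun e => J e + J' e) Pᶜ) (hres0 _ _ hB) _ hh
  have hlast : ZA a b (res a b (fun e => J e + J' e) Pᶜ) (fun T =>
        (∑ U' : Finset V, CC a b (ga a b J T U') P u) *
          (∏ e ∈ ins a b Qᶜ \ ins a b Pᶜ, Real.exp (J' e * sb a b T e)) *
          ∏ e ∈ cr a b P Q, Real.exp (J e * mx a b P T T e)) ≤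
      ZA a b (res a b (fun e => J e + J' e) Pᶜ) (fun T =>
        (∑ U' : Finset V, CC a b (ga a b J T U') P u) *
          ∏ e ∈ (ins a b Pᶜ)ᶜ, Real.exp (J' e * sb a b T e)) := by
    have hd : Pos (fun T => (∑ U' : Finset V, CC a b (ga a b J T U') P u) *
        (∏ e ∈ ins a b Qᶜ \ ins a b Pᶜ, Real.exp (J' e * sb a b T e)) *
        (∏ e ∈ cr a b P Q, Real.exp (J' e * sb a b T e) -
          ∏ e ∈ cr a b P Q, Real.exp (J e * sb a b T e))) :=
      Pos.mul (Pos.mul hC (hE _)) (pos_diff a b J J' _ (fun e _ => hJ e) fun e _ => hJJ e)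
    have h0 := gks_nonneg a b (res a b (fun e => J e + J' e) Pᶜ) (hres0 _ _ hB) _ hd
    have hmx : ∀ (T : Finset V) (e : E), mx a b P T T e = sb a b T e := by
      intro T e
      unfold mx sb
      split_ifs
      · rfl
      · ring
    rw [← sub_nonneg]
    refine h0.trans (le_of_eq ?_)
    unfold ZA
    rw [← Finset.sum_sub_distrib]
    refine Finset.sum_congr rfl fun T _ => ?_
    beta_reduce
    rw [fix_cr a b P Q hPQ]
    simp only [hmx]
    ring
  -- abbreviations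
  generalize hS1 : (∑ T : Finset V, ∑ U : Finset V,
        ((∑ U' : Finset V, CC a b (ga a b J T U') P u) *
          (∏ e ∈ ins a b Qᶜ \ ins a b Pᶜ, Real.exp (J' e * sb a b T e)) *
          ∏ e ∈ cr a b P Q, Real.exp (J e * mx a b P T U e)) *
        (wt a b (res a b (fun e => J e + J' e) (P ∪ Q)ᶜ) T * wt a b (res a b J Pᶜ) U)) = S1
    at hL hmono
  generalize hS2 : (∑ T : Finset V, ∑ U : Finset V,
        ((∑ U' : Finset V, CC a b (ga a b J T U') P u) *
          (∏ e ∈ ins a b Qᶜ \ ins a b Pᶜ, Real.exp (J' e * sb a b T e)) *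
          ∏ e ∈ cr a b P Q, Real.exp (J e * mx a b P T U e)) *
        (wt a b (res a b (fun e => J e + J' e) Pᶜ) T *
          wt a b (res a b (fun e => J e + J' e) Pᶜ) U)) = S2 at hdiag hmono
  generalize ZA a b (res a b (fun e => J e + J' e) Pᶜ) (fun T =>
        (∑ U' : Finset V, CC a b (ga a b J T U') P u) *
          (∏ e ∈ ins a b Qᶜ \ ins a b Pᶜ, Real.exp (J' e * sb a b T e)) *
          ∏ e ∈ cr a b P Q, Real.exp (J e * mx a b P T T e)) = D at hdiag hlast
  generalize ZA a b (res a b (fun e => J e + J' e) Pᶜ) (fun T =>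
        (∑ U' : Finset V, CC a b (ga a b J T U') P u) *
          ∏ e ∈ (ins a b Pᶜ)ᶜ, Real.exp (J' e * sb a b T e)) = R1 at hlast hR
  generalize ZA a b (res a b (fun e => J e + J' e) Pᶜ) (fun _ => 1) = ZG at *
  generalize ZA a b (res a b (fun e => J e + J' e) (P ∪ Q)ᶜ) (fun _ => 1) = ZX at *
  generalize ZA a b (res a b J Pᶜ) (fun _ => 1) = ZJ at *
  generalize (∑ T : Finset V, CC a b (al a b (fun e => J e + J' e) T) Q x) = c at *
  generalize LP a b J J' u x P Q = L at *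
  generalize RP a b J J' u P = R at *
  have hn : (0 : ℝ) < (2 : ℝ) ^ Fintype.card V := by positivity
  generalize (2 : ℝ) ^ Fintype.card V = n at *
  -- `hmono : S1 * (ZG * ZG) ≤ S2 * (ZX * ZJ)`, `hdiag : S2 ≤ D * ZG`, `hlast : D ≤ R1`
  have h1 : S1 * ZG ≤ R1 * (ZX * ZJ) := by
    have h2 : S1 * (ZG * ZG) ≤ (R1 * ZG) * (ZX * ZJ) :=
      hmono.trans (mul_le_mul_of_nonneg_right
        (hdiag.trans (mul_le_mul_of_nonneg_right hlast hZG.le)) (mul_pos hZX hZJ).le)
    have h3 : (S1 * ZG) * ZG ≤ (R1 * (ZX * ZJ)) * ZG := by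
      calc (S1 * ZG) * ZG = S1 * (ZG * ZG) := by ring
        _ ≤ (R1 * ZG) * (ZX * ZJ) := h2
        _ = (R1 * (ZX * ZJ)) * ZG := by ring
    exact le_of_mul_le_mul_right h3 hZG
  refine le_of_mul_le_mul_left ?_ hn
  calc n * (n * ZG * L) = ZG * (n * n * L) := by ring
    _ = c * (S1 * ZG) := by rw [hL]; ring
    _ ≤ c * (R1 * (ZX * ZJ)) := mul_le_mul_of_nonneg_left h1 hc
    _ = c * ZX * (R1 * ZJ) := by ring
    _ = n * (c * ZX * R) := by rw [← hR]; ring

end Pool.Agent.C1s
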