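import Pool.Agent.C1s.Defs

set_option autoImplicit false

namespace Pool.Agent.C1s

open Finset Pool.Agent.TC
open Pool.Agent.SRC (ind ind_true ind_false ind_nonneg ind_le_one ind_not ind_congr)

variable {V E : Type*} [Fintype V] [DecidableEq V] [Fintype E] [DecidableEq E] (a b : E → V)

/-- The cluster contains its root. -/
theorem self_mem_cl (F : Finset E) (u : V) : u ∈ cl a b F u :=
  (mem_cl a b F u u).2 Relation.ReflTransGen.refl

/-- An edge of `F` has both ends in the cluster or none. -/
theorem cl_edge (F : Finset E) (u : V) (e : E) (he : e ∈ F) :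
    a e ∈ cl a b F u ↔ b e ∈ cl a b F u := by
  rw [mem_cl, mem_cl]
  constructor
  · intro h
    exact h.tail ⟨e, he, Or.inl ⟨rfl, rfl⟩⟩
  · intro h
    exact h.tail ⟨e, he, Or.inr ⟨rfl, rfl⟩⟩

omit [Fintype V] [DecidableEq E] in
private theorem K_mem_ins (P : Finset V) (e : E) : e ∈ ins a b P ↔ a e ∈ P ∧ b e ∈ P := by
  simp [ins]

/-- Only the edges inside the cluster matter: if `cl F u = P` then `cl (F ∩ ins P) u = P`; conversely, adding
edges outside `P` does not change the cluster. -/
theorem cl_split (F₁ F₂ : Finset E) (u : V) (P : Finset V) (h1 : F₁ ⊆ ins a b P)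
    (h2 : F₂ ⊆ ins a b Pᶜ) : cl a b (F₁ ∪ F₂) u = P ↔ cl a b F₁ u = P := by
  by_cases hu : u ∈ P
  · have key : ∀ v, Cn a b (fun e => e ∈ F₁ ∪ F₂) u v → Cn a b (fun e => e ∈ F₁) u v ∧ v ∈ P := by
      intro v hv
      induction hv with
      | refl => exact ⟨Relation.ReflTransGen.refl, hu⟩
      | tail _ hs ih =>
        obtain ⟨ih1, ih2⟩ := ih
        obtain ⟨o, ho, hab⟩ := hs
        have ho1 : o ∈ F₁ := by
          rcases Finset.mem_union.1 ho with ho | ho
          · exact ho
          · exfalso
            have hh := (K_mem_ins a b _ _).1 (h2 ho)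
            rw [Finset.mem_compl, Finset.mem_compl] at hh
            rcases hab with ⟨hp, _⟩ | ⟨_, hp⟩
            · exact hh.1 (hp ▸ ih2)
            · exact hh.2 (hp ▸ ih2)
        refine ⟨ih1.tail ⟨o, ho1, hab⟩, ?_⟩
        have hh := (K_mem_ins a b _ _).1 (h1 ho1)
        rcases hab with ⟨_, hq⟩ | ⟨hq, _⟩
        · exact hq ▸ hh.2
        · exact hq ▸ hh.1
    have e : cl a b (F₁ ∪ F₂) u = cl a b F₁ u := by
      ext v
      rw [mem_cl, mem_cl]
      constructor
      · exact fun h => (key v h).1
      · intro h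
        induction h with
        | refl => exact Relation.ReflTransGen.refl
        | tail _ hs ih =>
          obtain ⟨o, ho, hab⟩ := hs
          exact ih.tail ⟨o, Finset.mem_union_left _ ho, hab⟩
    rw [e]
  · constructor
    · intro h
      exact absurd (h ▸ self_mem_cl a b (F₁ ∪ F₂) u) hu
    · intro h
      exact absurd (h ▸ self_mem_cl a b F₁ u) hu

/-- Sum over all edge sets with a given cluster of `u`. -/
theorem cluster_sum (α : E → ℝ) (u : V) (P : Finset V) :
    ∑ F : Finset E, ind (cl a b F u = P) * ∏ e ∈ F, α e =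
      CC a b α P u * ∏ e ∈ ins a b Pᶜ, (1 + α e) := by
  have hd : Disjoint (ins a b P) (ins a b Pᶜ) := by
    rw [Finset.disjoint_left]
    intro e he he'
    rw [K_mem_ins] at he he'
    rw [Finset.mem_compl] at he'
    exact he'.1 he.1
  rw [Finset.prod_one_add, CC, Finset.sum_mul_sum, ← Finset.sum_product']
  have h0 : ∑ F : Finset E, ind (cl a b F u = P) * ∏ e ∈ F, α e =
      ∑ F ∈ (ins a b P ∪ ins a b Pᶜ).powerset, ind (cl a b F u = P) * ∏ e ∈ F, α e := by
    refine (Finset.sum_subset (Finset.subset_univ _) fun F _ hF => ?_).symm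
    rw [ind_false, zero_mul]
    intro hP
    apply hF
    rw [Finset.mem_powerset]
    intro e he
    have hh := cl_edge a b F u e he
    rw [hP] at hh
    rw [Finset.mem_union, K_mem_ins, K_mem_ins, Finset.mem_compl, Finset.mem_compl]
    by_cases ha : a e ∈ P
    · exact Or.inl ⟨ha, hh.1 ha⟩
    · exact Or.inr ⟨ha, fun hb => ha (hh.2 hb)⟩
  rw [h0]
  refine Finset.sum_nbij' (fun F => (F ∩ ins a b P, F ∩ ins a b Pᶜ)) (fun F => F.1 ∪ F.2)
    ?_ ?_ ?_ ?_ ?_
  · intro F _
    rw [Finset.mem_product, Finset.mem_powerset, Finset.mem_powerset]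
    exact ⟨Finset.inter_subset_right, Finset.inter_subset_right⟩
  · intro F hF
    rw [Finset.mem_product, Finset.mem_powerset, Finset.mem_powerset] at hF
    rw [Finset.mem_powerset]
    exact Finset.union_subset_union hF.1 hF.2
  · intro F hF
    rw [Finset.mem_powerset] at hF
    show F ∩ ins a b P ∪ F ∩ ins a b Pᶜ = F
    rw [← Finset.inter_union_distrib_left, Finset.inter_eq_left.2 hF]
  · rintro ⟨F₁, F₂⟩ hF
    rw [Finset.mem_product, Finset.mem_powerset, Finset.mem_powerset] at hF
    obtain ⟨h1, h2⟩ := hF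
    simp only at h1 h2
    ext e
    · simp only [Finset.mem_inter, Finset.mem_union]
      constructor
      · rintro ⟨h | h, h'⟩
        · exact h
        · exact absurd (h2 h) (Finset.disjoint_left.1 hd h')
      · exact fun h => ⟨Or.inl h, h1 h⟩
    · simp only [Finset.mem_inter, Finset.mem_union]
      constructor
      · rintro ⟨h | h, h'⟩
        · exact absurd h' (Finset.disjoint_left.1 hd (h1 h))
        · exact h
      · exact fun h => ⟨Or.inr h, h2 h⟩
  · intro F hF
    rw [Finset.mem_powerset] at hF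
    have e1 : F ∩ ins a b P ∪ F ∩ ins a b Pᶜ = F := by
      rw [← Finset.inter_union_distrib_left, Finset.inter_eq_left.2 hF]
    have e2 := cl_split a b (F ∩ ins a b P) (F ∩ ins a b Pᶜ) u P Finset.inter_subset_right
      Finset.inter_subset_right
    rw [e1] at e2
    have e3 : Disjoint (F ∩ ins a b P) (F ∩ ins a b Pᶜ) :=
      hd.mono Finset.inter_subset_right Finset.inter_subset_right
    have e4 := Finset.prod_union e3 (f := α)
    rw [e1] at e4
    rw [ind_congr e2, e4, mul_assoc]

/-- Decomposition of a product according to the cluster of `u`. -/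
theorem cluster_total (α : E → ℝ) (u : V) :
    ∏ e, (1 + α e) = ∑ P : Finset V, CC a b α P u * ∏ e ∈ ins a b Pᶜ, (1 + α e) := by
  simp only [← cluster_sum]
  rw [Finset.sum_comm, Finset.prod_one_add, Finset.powerset_univ]
  refine Finset.sum_congr rfl fun F _ => ?_
  rw [← Finset.sum_mul, Finset.sum_eq_single (cl a b F u), ind_true rfl, one_mul]
  · intro P _ hP
    exact ind_false fun h => hP h.symm
  · intro h
    exact absurd (Finset.mem_univ _) h

theorem CC_zero (α : E → ℝ) (u : V) (P : Finset V) (hu : u ∉ P) : CC a b α P u = 0 := by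
  refine Finset.sum_eq_zero fun F _ => ?_
  rw [ind_false, zero_mul]
  intro h
  exact hu (h ▸ self_mem_cl a b F u)

theorem CC_congr (α α' : E → ℝ) (u : V) (P : Finset V) (h : ∀ e ∈ ins a b P, α e = α' e) :
    CC a b α P u = CC a b α' P u := by
  refine Finset.sum_congr rfl fun F hF => ?_
  rw [Finset.mem_powerset] at hF
  rw [Finset.prod_congr rfl fun e he => h e (hF he)]

/-- Clusters avoiding `Q`. -/
theorem CC_restrict (α : E → ℝ) (u : V) (P Q : Finset V) (hu : u ∉ Q) :
    CC a b (fun e => if a e ∉ Q ∧ b e ∉ Q then α e else 0) P u =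
      if Disjoint P Q then CC a b α P u else 0 := by
  split_ifs with hd
  · refine CC_congr a b _ _ u P fun e he => ?_
    rw [K_mem_ins] at he
    exact if_pos ⟨Finset.disjoint_left.1 hd he.1, Finset.disjoint_left.1 hd he.2⟩
  · refine Finset.sum_eq_zero fun F _ => ?_
    by_cases hP : cl a b F u = P
    · by_cases hz : ∀ e ∈ F, a e ∉ Q ∧ b e ∉ Q
      · exfalso
        apply hd
        rw [Finset.disjoint_left, ← hP]
        intro v hv
        rw [mem_cl] at hv
        induction hv with
        | refl => exact hu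
        | tail _ hs _ =>
          obtain ⟨o, ho, hab⟩ := hs
          rcases hab with ⟨_, hq⟩ | ⟨hq, _⟩
          · exact hq ▸ (hz o ho).2
          · exact hq ▸ (hz o ho).1
      · push Not at hz
        obtain ⟨e, he, hne⟩ := hz
        have hne' : ¬ (a e ∉ Q ∧ b e ∉ Q) := fun h => h.2 (hne h.1)
        rw [Finset.prod_eq_zero he (if_neg hne'), mul_zero]
    · rw [ind_false hP, zero_mul]

/-- If the sum does not vanish, some edge set inside `P` on which `α` does not vanish joins all of `P` to `u`. -/
theorem CC_ne_zero (α : E → ℝ) (u : V) (P : Finset V) (h : CC a b α P u ≠ 0) :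
    ∃ F : Finset E, F ⊆ ins a b P ∧ cl a b F u = P ∧ ∀ e ∈ F, α e ≠ 0 := by
  obtain ⟨F, hF, hne⟩ := Finset.exists_ne_zero_of_sum_ne_zero h
  refine ⟨F, Finset.mem_powerset.1 hF, ?_, ?_⟩
  · by_contra hP
    apply hne
    rw [ind_false hP, zero_mul]
  · exact Finset.prod_ne_zero_iff.1 (right_ne_zero_of_mul hne)

end Pool.Agent.C1s
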