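import Pool.Agent.C1s.Defs
import Pool.Agent.TC.I1

set_option autoImplicit false

set_option linter.unusedVariables false

namespace Pool.Agent.C1s

open Finset Pool.Agent.TC
open Pool.Agent.SRC (ind ind_true ind_false ind_nonneg ind_le_one ind_not ind_congr)

variable {V E : Type*} [Fintype V] [DecidableEq V] [Fintype E] [DecidableEq E] (a b : E → V)

/-- Support of a current. -/
private def Tr_sup (n : E → ℕ) : Finset E := Finset.univ.filter (fun e => 0 < n e)

open Classical in
/-- Weight of a current if it is sourceless. -/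
private noncomputable def Tr_w (K : E → ℝ) (n : E → ℕ) : ℝ :=
  if Src a b n (fun _ => 0) then W K n else 0

open Classical in
/-- Sourceless currents with support `Y`. -/
private noncomputable def Tr_A (K : E → ℝ) (Y : Finset E) : ℝ :=
  ∑' n : E → ℕ, if Tr_sup n = Y then Tr_w a b K n else 0

omit [Fintype V] [DecidableEq E] in
private theorem Tr_w_abs (K : E → ℝ) (n : E → ℕ) : |Tr_w a b K n| ≤ |W K n| := by
  unfold Tr_w
  split_ifs
  · exact le_rfl
  · rw [abs_zero]; exact abs_nonneg _

include a b in
private theorem Tr_summable (K : E → ℝ) (u : V) : Summable (fun n : E → ℕ => |W K n|) :=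
  (spin_rep (Finset.univ : Finset V) a b (fun e => ⟨Finset.mem_univ _, Finset.mem_univ _⟩) u u
    (Finset.mem_univ _) (Finset.mem_univ _) K).1

open Classical in
private theorem Tr_summable_A (K : E → ℝ) (u : V) (Y : Finset E) :
    Summable (fun n : E → ℕ => if Tr_sup n = Y then Tr_w a b K n else 0) := by
  refine Summable.of_norm_bounded (Tr_summable a b K u) fun n => ?_
  rw [Real.norm_eq_abs]
  split_ifs
  · exact Tr_w_abs a b K n
  · rw [abs_zero]; exact abs_nonneg _

private theorem Tr_ZC (K : E → ℝ) (u x : V) :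
    ZC a b K u x = ∑ Y : Finset E, ind (Cn a b (fun e => e ∈ Y) u x) * Tr_A a b K Y := by
  classical
  unfold ZC Tr_A
  have h1 : ∀ Y : Finset E, ind (Cn a b (fun e => e ∈ Y) u x) *
      (∑' n : E → ℕ, if Tr_sup n = Y then Tr_w a b K n else 0) =
      ∑' n : E → ℕ, ind (Cn a b (fun e => e ∈ Y) u x) *
        (if Tr_sup n = Y then Tr_w a b K n else 0) := fun Y => tsum_mul_left.symm
  rw [Finset.sum_congr rfl fun Y _ => h1 Y]
  rw [← Summable.tsum_finsetSum fun Y _ => (Tr_summable_A a b K u Y).mul_left _]
  refine tsum_congr fun n => ?_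
  rw [Finset.sum_eq_single_of_mem (Tr_sup n) (Finset.mem_univ _)]
  · rw [if_pos rfl]
    have h2 : (Cn a b (fun e => e ∈ Tr_sup n) u x) ↔ Cn a b (fun e => 0 < n e) u x := by
      have : (fun e => e ∈ Tr_sup n) = fun e => 0 < n e := by
        funext e
        unfold Tr_sup
        simp
      rw [this]
    rw [ind_congr h2]
    unfold Tr_w
    by_cases hS : Src a b n (fun _ => 0)
    · by_cases hC : Cn a b (fun e => 0 < n e) u x
      · rw [if_pos ⟨hS, hC⟩, if_pos hS, ind_true hC, one_mul]
      · rw [if_neg (fun h => hC h.2), ind_false hC, zero_mul]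
    · rw [if_neg (fun h => hS h.1), if_neg hS, mul_zero]
  · intro Y _ hY
    rw [if_neg (fun h => hY h.symm), mul_zero]

omit [Fintype V] [DecidableEq V] in
private theorem Tr_W (K : E → ℝ) (Y : Finset E) (n : E → ℕ) :
    W (fun e => if e ∈ Y then K e else 0) n = if Tr_sup n ⊆ Y then W K n else 0 := by
  unfold W
  by_cases h : Tr_sup n ⊆ Y
  · rw [if_pos h]
    refine Finset.prod_congr rfl fun e _ => ?_
    dsimp only
    by_cases he : e ∈ Y
    · rw [if_pos he]
    · rw [if_neg he]
      have h0 : n e = 0 := by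
        by_contra hne
        exact he (h (by unfold Tr_sup; simp only [Finset.mem_filter, Finset.mem_univ, true_and]; omega))
      rw [h0]
      simp
  · rw [if_neg h]
    rw [Finset.not_subset] at h
    obtain ⟨e, he, heY⟩ := h
    have hne : n e ≠ 0 := by
      unfold Tr_sup at he
      simp only [Finset.mem_filter, Finset.mem_univ, true_and] at he
      omega
    refine Finset.prod_eq_zero (Finset.mem_univ e) ?_
    dsimp only
    rw [if_neg heY, zero_pow hne, zero_div]

private theorem Tr_ZD (K : E → ℝ) (u : V) (Y : Finset E) :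
    ZD a b (fun e => if e ∈ Y then K e else 0) (fun _ => 0) =
      ∑ Y' ∈ Y.powerset, Tr_A a b K Y' := by
  classical
  unfold ZD Tr_A
  rw [← Summable.tsum_finsetSum fun Y _ => Tr_summable_A a b K u Y]
  refine tsum_congr fun n => ?_
  rw [Tr_W]
  by_cases h : Tr_sup n ⊆ Y
  · rw [Finset.sum_eq_single_of_mem (Tr_sup n) (Finset.mem_powerset.2 h)]
    · rw [if_pos rfl, if_pos h]
      unfold Tr_w
      rfl
    · intro Y' _ hY'
      rw [if_neg (fun h => hY' h.symm)]
  · rw [if_neg h, Finset.sum_eq_zero]
    · simp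
    · intro Y' hY'
      rw [if_neg]
      rintro rfl
      exact h (Finset.mem_powerset.1 hY')

/-- spin representation of the sourceless partition function -/
private theorem Tr_spin (K : E → ℝ) (u : V) (Y : Finset E) :
    (2 : ℝ) ^ Fintype.card V * ZD a b (fun e => if e ∈ Y then K e else 0) (fun _ => 0) =
      ∑ Y' ∈ Y.powerset, ∑ T : Finset V, ∏ e ∈ Y', al a b K T e := by
  have h := (spin_rep (Finset.univ : Finset V) a b
    (fun e => ⟨Finset.mem_univ _, Finset.mem_univ _⟩) u u
    (Finset.mem_univ _) (Finset.mem_univ _) (fun e => if e ∈ Y then K e else 0)).2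
  have h0 : (inc u u : V → ZMod 2) = fun _ => 0 := by
    funext v
    unfold inc
    split_ifs
    · decide
    · simp
  rw [h0, Finset.card_univ] at h
  rw [h, Finset.sum_comm, Finset.powerset_univ]
  refine Finset.sum_congr rfl fun T _ => ?_
  have h1 : spin T u * spin T u = 1 := by
    unfold spin
    split_ifs <;> norm_num
  rw [h1, one_mul, Real.exp_sum, ← Finset.prod_one_add]
  have h2 : ∀ e, Real.exp ((if e ∈ Y then K e else 0) * (spin T (a e) * spin T (b e))) =
      if e ∈ Y then 1 + al a b K T e else 1 := by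
    intro e
    unfold al sb
    split_ifs
    · ring
    · simp
  rw [Finset.prod_congr rfl fun e _ => h2 e, Finset.prod_ite_mem, Finset.univ_inter]

private theorem Tr_eq (K : E → ℝ) (u : V) (Y : Finset E) :
    (2 : ℝ) ^ Fintype.card V * Tr_A a b K Y = ∑ T : Finset V, ∏ e ∈ Y, al a b K T e := by
  induction Y using Finset.strongInduction with
  | H Y ih =>
    have h1 := Tr_spin a b K u Y
    rw [Tr_ZD a b K u Y, Finset.mul_sum] at h1
    rw [← Finset.insert_erase (Finset.mem_powerset_self Y),
      Finset.sum_insert (Finset.notMem_erase _ _), Finset.sum_insert (Finset.notMem_erase _ _)] at h1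
    have h2 : ∑ Y' ∈ Y.powerset.erase Y, (2 : ℝ) ^ Fintype.card V * Tr_A a b K Y' =
        ∑ Y' ∈ Y.powerset.erase Y, ∑ T : Finset V, ∏ e ∈ Y', al a b K T e := by
      refine Finset.sum_congr rfl fun Y' hY' => ih Y' ?_
      rw [Finset.mem_erase, Finset.mem_powerset] at hY'
      exact lt_of_le_of_ne hY'.2 hY'.1
    rw [h2] at h1
    exact add_right_cancel h1

/-- Trace form of the sourceless currents which join `u` and `x`. -/
theorem trace_rep (K : E → ℝ) (hK : ∀ e, 0 ≤ K e) (u x : V) :
    (2 : ℝ) ^ Fintype.card V * ZC a b K u x =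
      ∑ Y : Finset E, ind (Cn a b (fun e => e ∈ Y) u x) *
        ∑ T : Finset V, ∏ e ∈ Y, al a b K T e := by
  rw [Tr_ZC, Finset.mul_sum]
  refine Finset.sum_congr rfl fun Y _ => ?_
  rw [← Tr_eq a b K u Y]
  ring

end Pool.Agent.C1s
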