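import Pool.Agent.C1s.FI
import Pool.Agent.C1s.Tr
import Pool.Agent.TC.I1

set_option autoImplicit false

namespace Pool.Agent.C1s

open Finset Pool.Agent.TC
open Pool.Agent.SRC (ind ind_true ind_false ind_nonneg ind_le_one ind_not ind_congr)

variable {V E : Type*} [Fintype V] [DecidableEq V] [Fintype E] [DecidableEq E] (a b : E → V)

private theorem Main_ZD (K : E → ℝ) (u x : V) :
    (2 : ℝ) ^ Fintype.card V * ZD a b K (inc u x) =
      ∑ T : Finset V, spin T u * spin T x * ∏ e, Real.exp (K e * sb a b T e) := by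
  have h := (spin_rep (Finset.univ : Finset V) a b
    (fun e => ⟨Finset.mem_univ _, Finset.mem_univ _⟩) u x
    (Finset.mem_univ _) (Finset.mem_univ _) K).2
  rw [Finset.card_univ, Finset.powerset_univ] at h
  rw [h]
  refine Finset.sum_congr rfl fun T _ => ?_
  rw [Real.exp_sum]
  rfl

private theorem Main_ZD0 (K : E → ℝ) (u : V) :
    (2 : ℝ) ^ Fintype.card V * ZD a b K (fun _ => 0) =
      ∑ T : Finset V, ∏ e, Real.exp (K e * sb a b T e) := by
  have h := Main_ZD a b K u u
  have h0 : (inc u u : V → ZMod 2) = fun _ => 0 := by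
    funext v
    unfold inc
    split_ifs
    · decide
    · simp
  rw [h0] at h
  rw [h]
  refine Finset.sum_congr rfl fun T _ => ?_
  have h1 : spin T u * spin T u = 1 := by
    unfold spin
    split_ifs <;> norm_num
  rw [h1, one_mul]

/-- The inequality for currents on a finite vertex set. -/
theorem main_fin (J J' : E → ℝ) (hJ : ∀ e, 0 ≤ J e) (hJJ : ∀ e, J e ≤ J' e) (u x : V) :
    ZD a b (fun e => J e + J' e) (inc u x) * ZD a b J (inc u x) ≤
      ZC a b (fun e => J e + J' e) u x * ZD a b J (fun _ => 0) := by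
  have hfin := finite_ineq a b J J' hJ hJJ u x
  have hB : ∀ e, 0 ≤ J e + J' e := fun e => add_nonneg (hJ e) ((hJ e).trans (hJJ e))
  have h1 := Main_ZD a b (fun e => J e + J' e) u x
  have h2 := Main_ZD a b J u x
  have h3 := Main_ZD0 a b J u
  have h4 := Main_ZD0 a b (fun e => J e + J' e) u
  have h5 := trace_rep a b (fun e => J e + J' e) hB u x
  set N : ℝ := (2 : ℝ) ^ Fintype.card V with hN
  have hNpos : 0 < N := by positivity
  set B : E → ℝ := fun e => J e + J' e with hBdef
  -- the full sum over traces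
  have h6 : ∑ T : Finset V, ∏ e, Real.exp (B e * sb a b T e) =
      ∑ Y : Finset E, ∑ T : Finset V, ∏ e ∈ Y, al a b B T e := by
    rw [Finset.sum_comm]
    refine Finset.sum_congr rfl fun T _ => ?_
    have h7 : ∏ e, Real.exp (B e * sb a b T e) = ∏ e, (1 + al a b B T e) := by
      refine Finset.prod_congr rfl fun e _ => ?_
      unfold al
      ring
    rw [h7, Finset.prod_one_add, Finset.powerset_univ]
  have h8 : ∑ Y : Finset E, ind (¬ Cn a b (fun e => e ∈ Y) u x) *
      ∑ T : Finset V, ∏ e ∈ Y, al a b B T e =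
      N * ZD a b B (fun _ => 0) - N * ZC a b B u x := by
    rw [h4, h6, h5, ← Finset.sum_sub_distrib]
    refine Finset.sum_congr rfl fun Y _ => ?_
    rw [ind_not]
    ring
  have h9 : ∑ T : Finset V, ∑ U : Finset V, (1 - spin U u * spin U x * (spin T u * spin T x)) *
      ((∏ e, Real.exp (J e * sb a b U e)) * ∏ e, Real.exp ((J e + J' e) * sb a b T e)) =
      (N * ZD a b B (fun _ => 0)) * (N * ZD a b J (fun _ => 0)) -
        (N * ZD a b B (inc u x)) * (N * ZD a b J (inc u x)) := by
    rw [h1, h2, h3, h4, Finset.sum_mul_sum, Finset.sum_mul_sum, ← Finset.sum_sub_distrib]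
    refine Finset.sum_congr rfl fun T _ => ?_
    rw [← Finset.sum_sub_distrib]
    refine Finset.sum_congr rfl fun U _ => ?_
    ring
  rw [h8, h9, ← h3] at hfin
  have h10 : N * N * (ZD a b B (inc u x) * ZD a b J (inc u x)) ≤
      N * N * (ZC a b B u x * ZD a b J (fun _ => 0)) := by
    nlinarith [hfin]
  exact le_of_mul_le_mul_left h10 (mul_pos hNpos hNpos)

end Pool.Agent.C1s
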