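import Pool.Agent.C1s.Main

set_option autoImplicit false

namespace Pool.Agent.C1s

open Finset Pool.Agent.TC
open Pool.Agent.SRC (ind ind_true ind_false ind_nonneg ind_le_one ind_not ind_congr)

variable {V E : Type*} [Fintype V] [DecidableEq V] [Fintype E] [DecidableEq E] (a b : E → V)

omit [Fintype V] [DecidableEq V] [Fintype E] [DecidableEq E] in
/-- connectivity on the subtype -/
private theorem Main2_Cn (S : Finset V) (hab : ∀ e, a e ∈ S ∧ b e ∈ S) (P : E → Prop)
    (u x : {v // v ∈ S}) :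
    Cn a b P (u : V) (x : V) ↔
      Cn (fun e => (⟨a e, (hab e).1⟩ : {v // v ∈ S})) (fun e => ⟨b e, (hab e).2⟩) P u x := by
  constructor
  · intro h
    have key : ∀ y : V, Cn a b P (u : V) y → ∀ hy : y ∈ S,
        Cn (fun e => (⟨a e, (hab e).1⟩ : {v // v ∈ S})) (fun e => ⟨b e, (hab e).2⟩) P u ⟨y, hy⟩ := by
      intro y hy
      induction hy with
      | refl => intro _; exact Relation.ReflTransGen.refl
      | @tail p q _ hpq ih =>
        intro hq
        obtain ⟨o, ho, hoo⟩ := hpq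
        have hp : p ∈ S := by
          rcases hoo with h | h
          · rw [← h.1]; exact (hab o).1
          · rw [← h.2]; exact (hab o).2
        refine Relation.ReflTransGen.tail (ih hp) ⟨o, ho, ?_⟩
        rcases hoo with h | h
        · exact Or.inl ⟨Subtype.ext h.1, Subtype.ext h.2⟩
        · exact Or.inr ⟨Subtype.ext h.1, Subtype.ext h.2⟩
    exact key x h x.2
  · intro h
    induction h with
    | refl => exact Relation.ReflTransGen.refl
    | tail _ hpq ih =>
      obtain ⟨o, ho, hoo⟩ := hpq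
      refine Relation.ReflTransGen.tail ih ⟨o, ho, ?_⟩
      rcases hoo with h | h
      · exact Or.inl ⟨congrArg Subtype.val h.1, congrArg Subtype.val h.2⟩
      · exact Or.inr ⟨congrArg Subtype.val h.1, congrArg Subtype.val h.2⟩

omit [Fintype V] [Fintype E] [DecidableEq E] in
private theorem Main2_inc (S : Finset V) (p q v : {v // v ∈ S}) :
    inc (p : V) (q : V) (v : V) = inc p q v := by
  unfold inc
  simp only [Subtype.ext_iff]

omit [Fintype V] [DecidableEq E] in
private theorem Main2_Src (S : Finset V) (hab : ∀ e, a e ∈ S ∧ b e ∈ S) (n : E → ℕ)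
    (D : V → ZMod 2) (hD : ∀ v, v ∉ S → D v = 0) :
    Src a b n D ↔
      Src (fun e => (⟨a e, (hab e).1⟩ : {v // v ∈ S})) (fun e => ⟨b e, (hab e).2⟩) n
        (fun v => D v) := by
  constructor
  · intro h v
    refine Eq.trans ?_ (h v)
    refine Finset.sum_congr rfl fun e _ => ?_
    rw [← Main2_inc]
  · intro h v
    by_cases hv : v ∈ S
    · refine Eq.trans ?_ (h ⟨v, hv⟩)
      refine Finset.sum_congr rfl fun e _ => ?_
      rw [← Main2_inc]
    · rw [hD v hv]
      refine Finset.sum_eq_zero fun e _ => ?_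
      have h1 : a e ≠ v := fun h => hv (h ▸ (hab e).1)
      have h2 : b e ≠ v := fun h => hv (h ▸ (hab e).2)
      unfold inc
      rw [if_neg h1, if_neg h2]
      simp

omit [Fintype V] in
/-- The inequality for currents, arbitrary vertex type. -/
theorem main_S (S : Finset V) (hab : ∀ e, a e ∈ S ∧ b e ∈ S) (u x : V) (hu : u ∈ S) (hx : x ∈ S)
    (J J' : E → ℝ) (hJ : ∀ e, 0 ≤ J e) (hJJ : ∀ e, J e ≤ J' e) :
    ZD a b (fun e => J e + J' e) (inc u x) * ZD a b J (inc u x) ≤
      ZC a b (fun e => J e + J' e) u x * ZD a b J (fun _ => 0) := by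
  classical
  have hD : ∀ (K : E → ℝ) (D : V → ZMod 2), (∀ v, v ∉ S → D v = 0) →
      ZD a b K D = ZD (fun e => (⟨a e, (hab e).1⟩ : {v // v ∈ S})) (fun e => ⟨b e, (hab e).2⟩) K
        (fun v => D v) := by
    intro K D hDv
    unfold ZD
    refine tsum_congr fun n => ?_
    have h := Main2_Src a b S hab n D hDv
    by_cases h1 : Src a b n D
    · rw [if_pos h1, if_pos (h.1 h1)]
    · rw [if_neg h1, if_neg (fun h2 => h1 (h.2 h2))]
  have hC : ∀ K : E → ℝ, ZC a b K u x =
      ZC (fun e => (⟨a e, (hab e).1⟩ : {v // v ∈ S})) (fun e => ⟨b e, (hab e).2⟩) K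
        ⟨u, hu⟩ ⟨x, hx⟩ := by
    intro K
    unfold ZC
    refine tsum_congr fun n => ?_
    have h := Main2_Src a b S hab n (fun _ => 0) (fun _ _ => rfl)
    have h' := Main2_Cn a b S hab (fun e => 0 < n e) ⟨u, hu⟩ ⟨x, hx⟩
    by_cases h1 : Src a b n (fun _ => 0) ∧ Cn a b (fun e => 0 < n e) u x
    · rw [if_pos h1, if_pos ⟨h.1 h1.1, h'.1 h1.2⟩]
    · rw [if_neg h1, if_neg (fun h2 => h1 ⟨h.2 h2.1, h'.2 h2.2⟩)]
  have hI : (fun v : {v // v ∈ S} => (inc u x : V → ZMod 2) v) =
      inc (⟨u, hu⟩ : {v // v ∈ S}) ⟨x, hx⟩ := by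
    funext v
    exact Main2_inc S ⟨u, hu⟩ ⟨x, hx⟩ v
  have hIv : ∀ v, v ∉ S → (inc u x : V → ZMod 2) v = 0 := by
    intro v hv
    have h1 : u ≠ v := fun h => hv (h ▸ hu)
    have h2 : x ≠ v := fun h => hv (h ▸ hx)
    unfold inc
    rw [if_neg h1, if_neg h2]
    simp
  rw [hD _ _ hIv, hD _ _ hIv, hC, hD _ _ (fun _ _ => rfl), hI]
  exact main_fin (fun e => (⟨a e, (hab e).1⟩ : {v // v ∈ S})) (fun e => ⟨b e, (hab e).2⟩)
    J J' hJ hJJ ⟨u, hu⟩ ⟨x, hx⟩

omit [Fintype V] in
/-- The form used for the limit. -/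
theorem main_P2 (S : Finset V) (hab : ∀ e, a e ∈ S ∧ b e ∈ S) (u x : V) (hu : u ∈ S) (hx : x ∈ S)
    (J : E → ℝ) (hJ : ∀ e, 0 ≤ J e) :
    ZD a b (fun e => 2 * J e) (inc u x) * ZD a b J (inc u x) ≤
      ZC a b (fun e => 2 * J e) u x * ZD a b J (fun _ => 0) := by
  have h := main_S a b S hab u x hu hx J J hJ (fun _ => le_rfl)
  have h2 : (fun e => J e + J e) = fun e => 2 * J e := by
    funext e
    ring
  rw [h2] at h
  exact h

end Pool.Agent.C1s
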