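import Pool.Agent.C1s.K

set_option autoImplicit false

namespace Pool.Agent.C1s

open Finset Pool.Agent.TC
open Pool.Agent.SRC (ind ind_true ind_false ind_nonneg ind_le_one ind_not ind_congr)

variable {V E : Type*} [Fintype V] [DecidableEq V] [Fintype E] [DecidableEq E] (a b : E → V)

omit [Fintype V] in
private theorem sub_cases (T : Finset V) (v : V) : spin T v = 1 ∨ spin T v = -1 := by
  unfold spin
  split_ifs
  · exact Or.inr rfl
  · exact Or.inl rfl

private theorem sub_flip (U P : Finset V) (v : V) :
    spin (symmDiff U Pᶜ) v = if v ∈ P then spin U v else -spin U v := by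
  unfold spin
  simp only [Finset.mem_symmDiff, Finset.mem_compl]
  by_cases h1 : v ∈ U <;> by_cases h2 : v ∈ P <;> simp [h1, h2]

omit [Fintype V] in
private theorem sub_sq (T : Finset V) (v : V) : spin T v * spin T v = 1 := by
  rcases sub_cases T v with h | h <;> rw [h] <;> norm_num

omit [Fintype V] in
private theorem sub_iff (U T : Finset V) (v : V) : (v ∈ U ↔ v ∈ T) ↔ spin U v = spin T v := by
  unfold spin
  by_cases h1 : v ∈ U <;> by_cases h2 : v ∈ T <;> simp [h1, h2] <;> norm_num

private def sub_phi (T P : Finset V) (u : V) (U : Finset V) : Finset V :=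
  if (u ∈ U ↔ u ∈ T) then U else symmDiff U Pᶜ

private theorem sub_phi_inv (T P : Finset V) (u : V) (hu : u ∈ P) :
    Function.Involutive (sub_phi T P u) := by
  intro U
  unfold sub_phi
  by_cases h : (u ∈ U ↔ u ∈ T)
  · rw [if_pos h, if_pos h]
  · rw [if_neg h]
    have h2 : u ∈ symmDiff U Pᶜ ↔ u ∈ U := by
      rw [Finset.mem_symmDiff, Finset.mem_compl]
      simp [hu]
    rw [if_neg (by rw [h2]; exact h), symmDiff_symmDiff_cancel_right]

private theorem sub_agree (J : E → ℝ) (u : V) (P T U : Finset V)
    (h : CC a b (ga a b J T U) P u ≠ 0) (v : V) (hv : v ∈ P) :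
    spin U v * spin T v = spin U u * spin T u := by
  obtain ⟨F, -, hcl, hne⟩ := CC_ne_zero a b _ u P h
  rw [← hcl, mem_cl] at hv
  unfold Cn at hv
  induction hv with
  | refl => rfl
  | tail _ hbc ih =>
    rw [← ih]
    obtain ⟨e, he, hab⟩ := hbc
    have h1 := hne e he
    have h2 : spin U (a e) * spin T (a e) = spin U (b e) * spin T (b e) := by
      have h3 : sb a b T e + sb a b U e ≠ 0 := by
        intro h0
        apply h1
        unfold ga
        rw [h0, mul_zero, Real.exp_zero, sub_self]
      unfold sb at h3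
      rcases sub_cases T (a e) with p1 | p1 <;> rcases sub_cases T (b e) with p2 | p2 <;>
        rcases sub_cases U (a e) with p3 | p3 <;> rcases sub_cases U (b e) with p4 | p4 <;>
        rw [p1, p2, p3, p4] at h3 <;> rw [p1, p2, p3, p4] <;>
        first
          | (exfalso; apply h3; norm_num; done)
          | norm_num
    rcases hab with ⟨rfl, rfl⟩ | ⟨rfl, rfl⟩
    · exact h2.symm
    · exact h2

/-- On the support of the cluster sum the configurations agree on `P` up to a global sign. -/
theorem subst (J : E → ℝ) (u : V) (P Q : Finset V) (hPQ : Disjoint P Q) (hu : u ∈ P)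
    (T : Finset V) :
    ∑ U : Finset V, CC a b (ga a b J T U) P u *
        ((∏ e ∈ ins a b Pᶜ, Real.exp (J e * sb a b U e)) *
        ∏ e ∈ cr a b P Q, Real.exp (J e * sb a b U e)) =
    ∑ U : Finset V, CC a b (ga a b J T U) P u *
        ((∏ e ∈ ins a b Pᶜ, Real.exp (J e * sb a b U e)) *
        ∏ e ∈ cr a b P Q, Real.exp (J e * mx a b P T U e)) := by
  have hcr : ∀ e ∈ cr a b P Q, (a e ∈ P ∧ b e ∉ P) ∨ (a e ∉ P ∧ b e ∈ P) := by
    intro e he
    unfold cr at he
    rw [Finset.mem_filter] at he
    rcases he.2 with ⟨h1, h2⟩ | ⟨h1, h2⟩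
    · exact Or.inl ⟨h1, fun h => Finset.disjoint_left.mp hPQ h h2⟩
    · exact Or.inr ⟨fun h => Finset.disjoint_left.mp hPQ h h1, h2⟩
  have hperm := Equiv.sum_comp (sub_phi_inv T P u hu).toPerm (fun U : Finset V =>
    CC a b (ga a b J T U) P u * ((∏ e ∈ ins a b Pᶜ, Real.exp (J e * sb a b U e)) *
        ∏ e ∈ cr a b P Q, Real.exp (J e * mx a b P T U e)))
  rw [← hperm]
  refine Finset.sum_congr rfl fun U _ => ?_
  rw [Function.Involutive.coe_toPerm]
  by_cases hc : (u ∈ U ↔ u ∈ T)
  · have hphi : sub_phi T P u U = U := by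
      unfold sub_phi
      rw [if_pos hc]
    rw [hphi]
    by_cases h0 : CC a b (ga a b J T U) P u = 0
    · rw [h0, zero_mul, zero_mul]
    · have hag : ∀ v ∈ P, spin U v = spin T v := by
        intro v hv
        have h1 := sub_agree a b J u P T U h0 v hv
        rw [(sub_iff U T u).mp hc, sub_sq] at h1
        rcases sub_cases T v with p2 | p2 <;> rcases sub_cases U v with p3 | p3 <;>
          rw [p2, p3] at h1 <;> rw [p2, p3] <;> exfalso <;> norm_num at h1
      have hprod : ∏ e ∈ cr a b P Q, Real.exp (J e * sb a b U e) =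
          ∏ e ∈ cr a b P Q, Real.exp (J e * mx a b P T U e) := by
        refine Finset.prod_congr rfl fun e he => ?_
        have h2 : sb a b U e = mx a b P T U e := by
          unfold sb mx
          rcases hcr e he with ⟨h1, h2⟩ | ⟨h1, h2⟩
          · rw [if_pos h1, hag _ h1]
          · rw [if_neg h1, hag _ h2, mul_comm]
        rw [h2]
      rw [hprod]
  · have hphi : sub_phi T P u U = symmDiff U Pᶜ := by
      unfold sub_phi
      rw [if_neg hc]
    rw [hphi]
    have hCC : CC a b (ga a b J T (symmDiff U Pᶜ)) P u = CC a b (ga a b J T U) P u := by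
      refine CC_congr a b _ _ u P fun e he => ?_
      unfold ins at he
      rw [Finset.mem_filter] at he
      unfold ga sb
      rw [sub_flip, sub_flip, if_pos he.2.1, if_pos he.2.2]
    have hA : ∏ e ∈ ins a b Pᶜ, Real.exp (J e * sb a b (symmDiff U Pᶜ) e) =
        ∏ e ∈ ins a b Pᶜ, Real.exp (J e * sb a b U e) := by
      refine Finset.prod_congr rfl fun e he => ?_
      unfold ins at he
      rw [Finset.mem_filter, Finset.mem_compl, Finset.mem_compl] at he
      have h2 : sb a b (symmDiff U Pᶜ) e = sb a b U e := by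
        unfold sb
        rw [sub_flip, sub_flip, if_neg he.2.1, if_neg he.2.2, neg_mul_neg]
      rw [h2]
    rw [hCC, hA]
    by_cases h0 : CC a b (ga a b J T U) P u = 0
    · rw [h0, zero_mul, zero_mul]
    · have hag : ∀ v ∈ P, spin U v = -spin T v := by
        intro v hv
        have h1 := sub_agree a b J u P T U h0 v hv
        have hc' : spin U u = -spin T u := by
          have hc'' : spin U u ≠ spin T u := fun h => hc ((sub_iff U T u).mpr h)
          rcases sub_cases T u with p1 | p1 <;> rcases sub_cases U u with p4 | p4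
          · exact absurd (p4.trans p1.symm) hc''
          · rw [p1, p4]
          · rw [p1, p4, neg_neg]
          · exact absurd (p4.trans p1.symm) hc''
        rw [hc', neg_mul, sub_sq] at h1
        rcases sub_cases T v with p2 | p2 <;> rcases sub_cases U v with p3 | p3
        · rw [p2, p3] at h1
          norm_num at h1
        · rw [p2, p3]
        · rw [p2, p3, neg_neg]
        · rw [p2, p3] at h1
          norm_num at h1
      have hprod : ∏ e ∈ cr a b P Q, Real.exp (J e * sb a b U e) =
          ∏ e ∈ cr a b P Q, Real.exp (J e * mx a b P T (symmDiff U Pᶜ) e) := by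
        refine Finset.prod_congr rfl fun e he => ?_
        have h2 : sb a b U e = mx a b P T (symmDiff U Pᶜ) e := by
          unfold sb mx
          rcases hcr e he with ⟨h1, h2⟩ | ⟨h1, h2⟩
          · rw [if_pos h1, hag _ h1, sub_flip, if_neg h2]
            ring
          · rw [if_neg h1, hag _ h2, sub_flip, if_neg h1]
            ring
        rw [h2]
      rw [hprod]

end Pool.Agent.C1s
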