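import Pool.Agent.C1s.K
import Pool.Agent.C1s.Sub
import Pool.Agent.C1s.Dep

set_option autoImplicit false

namespace Pool.Agent.C1s

open Finset Pool.Agent.TC
open Pool.Agent.SRC (ind ind_true ind_false ind_nonneg ind_le_one ind_not ind_congr)

variable {V E : Type*} [Fintype V] [DecidableEq V] [Fintype E] [DecidableEq E] (a b : E → V)

omit [Fintype V] [DecidableEq E] in
private theorem Norm_wt_res (K : E → ℝ) (G T : Finset V) :
    wt a b (res a b K G) T = ∏ e ∈ ins a b G, Real.exp (K e * sb a b T e) := by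
  unfold wt ins
  rw [Finset.prod_filter]
  refine Finset.prod_congr rfl fun e _ => ?_
  unfold res
  split_ifs with h
  · rfl
  · rw [zero_mul, Real.exp_zero]

omit [Fintype V] [Fintype E] [DecidableEq E] in
private theorem Norm_one_ga (J : E → ℝ) (T U : Finset V) (e : E) :
    1 + ga a b J T U e = Real.exp (J e * sb a b T e) * Real.exp (J e * sb a b U e) := by
  unfold ga
  rw [← Real.exp_add]
  ring_nf

omit [Fintype V] [DecidableEq E] in
private theorem Norm_mem_ins (G : Finset V) (e : E) : e ∈ ins a b G ↔ a e ∈ G ∧ b e ∈ G := by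
  unfold ins
  simp

omit [Fintype V] [DecidableEq E] in
private theorem Norm_mem_cr (P Q : Finset V) (e : E) :
    e ∈ cr a b P Q ↔ (a e ∈ P ∧ b e ∈ Q) ∨ (a e ∈ Q ∧ b e ∈ P) := by
  unfold cr
  simp

private theorem Norm_split1 (P Q : Finset V) (f : E → ℝ) :
    ∏ e ∈ ins a b Qᶜ, f e = (∏ e ∈ ins a b (P ∪ Q)ᶜ, f e) * ∏ e ∈ ins a b Qᶜ \ ins a b Pᶜ, f e := by
  rw [← Finset.prod_union]
  · congr 1
    ext e
    simp only [Finset.mem_union, Finset.mem_sdiff, Norm_mem_ins, Finset.mem_compl]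
    tauto
  · rw [Finset.disjoint_left]
    intro e
    simp only [Finset.mem_sdiff, Norm_mem_ins, Finset.mem_compl, Finset.mem_union]
    tauto

private theorem Norm_split2 (P Q : Finset V) (hPQ : Disjoint P Q) (f : E → ℝ) :
    (∏ e ∈ ins a b (P ∪ Q)ᶜ, f e) * ∏ e ∈ (ins a b Qᶜ)ᶜ, f e =
      (∏ e ∈ ins a b Pᶜ, f e) * ∏ e ∈ cr a b P Q, f e := by
  have hd : ∀ v, v ∈ P → v ∉ Q := fun v h1 h2 => (Finset.disjoint_left.mp hPQ h1) h2
  rw [← Finset.prod_union, ← Finset.prod_union]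
  · congr 1
    ext e
    have h1 := hd (a e)
    have h2 := hd (b e)
    simp only [Finset.mem_union, Norm_mem_ins, Norm_mem_cr, Finset.mem_compl]
    tauto
  · rw [Finset.disjoint_left]
    intro e
    simp only [Norm_mem_ins, Norm_mem_cr, Finset.mem_compl]
    tauto
  · rw [Finset.disjoint_left]
    intro e
    simp only [Norm_mem_ins, Finset.mem_compl, Finset.mem_union]
    tauto

omit [Fintype V] [Fintype E] [DecidableEq E] in
private theorem Norm_spin_sdiff (Q T : Finset V) (v : V) (hv : v ∉ Q) :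
    spin (T \ Q) v = spin T v := by
  unfold spin
  by_cases h : v ∈ T <;> simp [h, hv]

private theorem Norm_wt_sdiff (K : E → ℝ) (G Q T : Finset V) (hG : Disjoint G Q) :
    wt a b (res a b K G) (T \ Q) = wt a b (res a b K G) T := by
  rw [Norm_wt_res, Norm_wt_res]
  refine Finset.prod_congr rfl fun e he => ?_
  rw [Norm_mem_ins] at he
  rw [sb_sdiff a b Q T e ⟨Finset.disjoint_left.mp hG he.1, Finset.disjoint_left.mp hG he.2⟩]

/-- Normal form of `LP`. -/
theorem LP_norm (J J' : E → ℝ) (u x : V) (P Q : Finset V) (hPQ : Disjoint P Q) (hu : u ∈ P) :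
    ((2 : ℝ) ^ Fintype.card V * (2 : ℝ) ^ Fintype.card V) * LP a b J J' u x P Q =
      (∑ T : Finset V, CC a b (al a b (fun e => J e + J' e) T) Q x) *
      ∑ T : Finset V, ∑ U : Finset V,
        ((∑ U' : Finset V, CC a b (ga a b J T U') P u) *
          (∏ e ∈ ins a b Qᶜ \ ins a b Pᶜ, Real.exp (J' e * sb a b T e)) *
          ∏ e ∈ cr a b P Q, Real.exp (J e * mx a b P T U e)) *
        (wt a b (res a b (fun e => J e + J' e) (P ∪ Q)ᶜ) T * wt a b (res a b J Pᶜ) U) := by
  have hd : ∀ v, v ∈ P → v ∉ Q := fun v h1 h2 => (Finset.disjoint_left.mp hPQ h1) h2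
  -- the inner sum for fixed `T`
  have h1 : ∀ T : Finset V, (2 : ℝ) ^ Fintype.card V *
      (∑ U : Finset V, CC a b (al a b (fun e => J e + J' e) T) Q x *
        CC a b (ga a b J T U) P u *
        (∏ e ∈ ins a b (P ∪ Q)ᶜ, (1 + ga a b J T U e)) *
        (∏ e ∈ ins a b Qᶜ, Real.exp (J' e * sb a b T e)) *
        ∏ e ∈ (ins a b Qᶜ)ᶜ, Real.exp (J e * sb a b U e)) =
      CC a b (al a b (fun e => J e + J' e) T) Q x *
        (∑ U : Finset V, ((∑ U' : Finset V, CC a b (ga a b J T U') P u) *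
          (∏ e ∈ ins a b Qᶜ \ ins a b Pᶜ, Real.exp (J' e * sb a b T e)) *
          ∏ e ∈ cr a b P Q, Real.exp (J e * mx a b P T U e)) *
        (wt a b (res a b (fun e => J e + J' e) (P ∪ Q)ᶜ) T * wt a b (res a b J Pᶜ) U)) := by
    intro T
    have hT : (∏ e ∈ ins a b (P ∪ Q)ᶜ, Real.exp (J e * sb a b T e)) *
        ∏ e ∈ ins a b Qᶜ, Real.exp (J' e * sb a b T e) =
        wt a b (res a b (fun e => J e + J' e) (P ∪ Q)ᶜ) T *
          ∏ e ∈ ins a b Qᶜ \ ins a b Pᶜ, Real.exp (J' e * sb a b T e) := by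
      rw [Norm_wt_res, Norm_split1 a b P Q, ← mul_assoc, ← Finset.prod_mul_distrib]
      congr 1
      refine Finset.prod_congr rfl fun e _ => ?_
      rw [← Real.exp_add]
      ring_nf
    have e1 : (∑ U : Finset V, CC a b (al a b (fun e => J e + J' e) T) Q x *
        CC a b (ga a b J T U) P u *
        (∏ e ∈ ins a b (P ∪ Q)ᶜ, (1 + ga a b J T U e)) *
        (∏ e ∈ ins a b Qᶜ, Real.exp (J' e * sb a b T e)) *
        ∏ e ∈ (ins a b Qᶜ)ᶜ, Real.exp (J e * sb a b U e)) =
        CC a b (al a b (fun e => J e + J' e) T) Q x *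
          (wt a b (res a b (fun e => J e + J' e) (P ∪ Q)ᶜ) T *
          ∏ e ∈ ins a b Qᶜ \ ins a b Pᶜ, Real.exp (J' e * sb a b T e)) *
          ∑ U : Finset V, CC a b (ga a b J T U) P u *
            ((∏ e ∈ ins a b Pᶜ, Real.exp (J e * sb a b U e)) *
            ∏ e ∈ cr a b P Q, Real.exp (J e * sb a b U e)) := by
      rw [Finset.mul_sum]
      refine Finset.sum_congr rfl fun U _ => ?_
      rw [← hT, ← Norm_split2 a b P Q hPQ]
      simp_rw [Norm_one_ga]
      rw [Finset.prod_mul_distrib]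
      ring
    have e2 : (2 : ℝ) ^ Fintype.card V * ∑ U : Finset V, CC a b (ga a b J T U) P u *
            ((∏ e ∈ ins a b Pᶜ, Real.exp (J e * sb a b U e)) *
            ∏ e ∈ cr a b P Q, Real.exp (J e * mx a b P T U e)) =
        (∑ U : Finset V, CC a b (ga a b J T U) P u) *
          ∑ U : Finset V, ((∏ e ∈ ins a b Pᶜ, Real.exp (J e * sb a b U e)) *
            ∏ e ∈ cr a b P Q, Real.exp (J e * mx a b P T U e)) := by
      refine indep P _ _ (fun U => (CC_ga_inter a b J P T U u).2) (fun U => ?_)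
      congr 1
      · have := Norm_wt_sdiff a b J Pᶜ P U disjoint_compl_left
        rw [Norm_wt_res, Norm_wt_res] at this
        exact this
      · refine Finset.prod_congr rfl fun e he => ?_
        rw [Norm_mem_cr] at he
        congr 2
        unfold mx
        rcases he with ⟨h2, h3⟩ | ⟨h2, h3⟩
        · rw [if_pos h2, if_pos h2, Norm_spin_sdiff P U (b e) (fun h => hd _ h h3)]
        · have h4 : a e ∉ P := fun h => hd _ h h2
          rw [if_neg h4, if_neg h4, Norm_spin_sdiff P U (a e) h4]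
    rw [e1, subst a b J u P Q hPQ hu T]
    calc (2 : ℝ) ^ Fintype.card V * (CC a b (al a b (fun e => J e + J' e) T) Q x *
          (wt a b (res a b (fun e => J e + J' e) (P ∪ Q)ᶜ) T *
          ∏ e ∈ ins a b Qᶜ \ ins a b Pᶜ, Real.exp (J' e * sb a b T e)) *
          ∑ U : Finset V, CC a b (ga a b J T U) P u *
            ((∏ e ∈ ins a b Pᶜ, Real.exp (J e * sb a b U e)) *
            ∏ e ∈ cr a b P Q, Real.exp (J e * mx a b P T U e)))
        = CC a b (al a b (fun e => J e + J' e) T) Q x *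
          (wt a b (res a b (fun e => J e + J' e) (P ∪ Q)ᶜ) T *
          ∏ e ∈ ins a b Qᶜ \ ins a b Pᶜ, Real.exp (J' e * sb a b T e)) *
          ((2 : ℝ) ^ Fintype.card V * ∑ U : Finset V, CC a b (ga a b J T U) P u *
            ((∏ e ∈ ins a b Pᶜ, Real.exp (J e * sb a b U e)) *
            ∏ e ∈ cr a b P Q, Real.exp (J e * mx a b P T U e))) := by ring
      _ = _ := by
        rw [e2, mul_assoc, Finset.mul_sum, Finset.mul_sum]
        congr 1
        refine Finset.sum_congr rfl fun U _ => ?_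
        rw [Norm_wt_res a b J Pᶜ U]
        ring
  unfold LP
  rw [mul_assoc, Finset.mul_sum]
  simp_rw [h1]
  refine indep Q _ _ (fun T => CC_al_inter a b _ Q T x) (fun T => ?_)
  refine Finset.sum_congr rfl fun U _ => ?_
  have g1 : (∑ U' : Finset V, CC a b (ga a b J (T \ Q) U') P u) =
      ∑ U' : Finset V, CC a b (ga a b J T U') P u :=
    Finset.sum_congr rfl fun U' _ => (CC_ga_sdiff a b J P Q T U' u hPQ).1
  have g2 : (∏ e ∈ ins a b Qᶜ \ ins a b Pᶜ, Real.exp (J' e * sb a b (T \ Q) e)) =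
      ∏ e ∈ ins a b Qᶜ \ ins a b Pᶜ, Real.exp (J' e * sb a b T e) := by
    refine Finset.prod_congr rfl fun e he => ?_
    rw [Finset.mem_sdiff, Norm_mem_ins, Finset.mem_compl, Finset.mem_compl] at he
    rw [sb_sdiff a b Q T e he.1]
  have g3 : (∏ e ∈ cr a b P Q, Real.exp (J e * mx a b P (T \ Q) U e)) =
      ∏ e ∈ cr a b P Q, Real.exp (J e * mx a b P T U e) := by
    refine Finset.prod_congr rfl fun e he => ?_
    rw [Norm_mem_cr] at he
    congr 2
    unfold mx
    rcases he with ⟨h2, h3⟩ | ⟨h2, h3⟩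
    · rw [if_pos h2, if_pos h2, Norm_spin_sdiff Q T (a e) (hd _ h2)]
    · have h4 : a e ∉ P := fun h => hd _ h h2
      rw [if_neg h4, if_neg h4, Norm_spin_sdiff Q T (b e) (hd _ h3)]
  have g4 : wt a b (res a b (fun e => J e + J' e) (P ∪ Q)ᶜ) (T \ Q) =
      wt a b (res a b (fun e => J e + J' e) (P ∪ Q)ᶜ) T := by
    refine Norm_wt_sdiff a b _ _ Q T ?_
    rw [Finset.disjoint_left]
    intro v hv hv2
    rw [Finset.mem_compl, Finset.mem_union] at hv
    exact hv (Or.inr hv2)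
  rw [g1, g2, g3, g4]

/-- Normal form of `RP`. -/
theorem RP_norm (J J' : E → ℝ) (u : V) (P : Finset V) :
    (2 : ℝ) ^ Fintype.card V * RP a b J J' u P =
      ZA a b (res a b (fun e => J e + J' e) Pᶜ) (fun T =>
        (∑ U' : Finset V, CC a b (ga a b J T U') P u) *
          ∏ e ∈ (ins a b Pᶜ)ᶜ, Real.exp (J' e * sb a b T e)) *
      ZA a b (res a b J Pᶜ) (fun _ => 1) := by
  unfold RP ZA
  rw [Finset.mul_sum, Finset.sum_mul]
  refine Finset.sum_congr rfl fun T _ => ?_
  have hT : (∏ e ∈ ins a b Pᶜ, Real.exp (J e * sb a b T e)) *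
      ∏ e, Real.exp (J' e * sb a b T e) =
      wt a b (res a b (fun e => J e + J' e) Pᶜ) T *
        ∏ e ∈ (ins a b Pᶜ)ᶜ, Real.exp (J' e * sb a b T e) := by
    rw [Norm_wt_res, ← Finset.prod_mul_prod_compl (ins a b Pᶜ), ← mul_assoc,
      ← Finset.prod_mul_distrib]
    congr 1
    refine Finset.prod_congr rfl fun e _ => ?_
    rw [← Real.exp_add]
    ring_nf
  have e2 : (2 : ℝ) ^ Fintype.card V * ∑ U : Finset V, CC a b (ga a b J T U) P u *
        wt a b (res a b J Pᶜ) U =
      (∑ U : Finset V, CC a b (ga a b J T U) P u) * ∑ U : Finset V, wt a b (res a b J Pᶜ) U :=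
    indep P _ _ (fun U => (CC_ga_inter a b J P T U u).2)
      (fun U => Norm_wt_sdiff a b J Pᶜ P U disjoint_compl_left)
  have e1 : (∑ U : Finset V, CC a b (ga a b J T U) P u *
      (∏ e ∈ ins a b Pᶜ, (1 + ga a b J T U e)) * ∏ e, Real.exp (J' e * sb a b T e)) =
      (wt a b (res a b (fun e => J e + J' e) Pᶜ) T *
        ∏ e ∈ (ins a b Pᶜ)ᶜ, Real.exp (J' e * sb a b T e)) *
      ∑ U : Finset V, CC a b (ga a b J T U) P u * wt a b (res a b J Pᶜ) U := by
    rw [← hT, Finset.mul_sum]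
    refine Finset.sum_congr rfl fun U _ => ?_
    simp_rw [Norm_one_ga]
    rw [Finset.prod_mul_distrib, Norm_wt_res]
    ring
  rw [e1]
  simp only [one_mul]
  calc (2 : ℝ) ^ Fintype.card V * ((wt a b (res a b (fun e => J e + J' e) Pᶜ) T *
        ∏ e ∈ (ins a b Pᶜ)ᶜ, Real.exp (J' e * sb a b T e)) *
      ∑ U : Finset V, CC a b (ga a b J T U) P u * wt a b (res a b J Pᶜ) U)
      = (wt a b (res a b (fun e => J e + J' e) Pᶜ) T *
        ∏ e ∈ (ins a b Pᶜ)ᶜ, Real.exp (J' e * sb a b T e)) *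
      ((2 : ℝ) ^ Fintype.card V * ∑ U : Finset V, CC a b (ga a b J T U) P u *
        wt a b (res a b J Pᶜ) U) := by ring
    _ = _ := by
      rw [e2]
      ring

end Pool.Agent.C1s
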